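import Mathlib

set_option autoImplicit false
set_option linter.unusedSectionVars false

open Set Filter Topology

namespace Pool.Agent.Results.MP_d9472f_gt.NoUniversalRealCurve

/-- A simple chain: finitely many open sets `L 0, ..., L (n-1)` such that two of them meet exactly
when their indices differ by at most one. -/
def IsSimpleChain {X : Type*} [TopologicalSpace X] (n : ℕ) (L : Fin n → Set X) : Prop :=
  (∀ i, IsOpen (L i)) ∧ ∀ i j : Fin n, (L i ∩ L j).Nonempty ↔ |((i : ℕ) : ℤ) - ((j : ℕ) : ℤ)| ≤ 1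

/-- Chainable: for every `ε > 0` the space is covered by a simple chain all of whose links have
diameter less than `ε`. (Only used for compact spaces, where diameters are finite.) -/
def Chainable (X : Type*) [MetricSpace X] : Prop :=
  ∀ ε : ℝ, 0 < ε → ∃ (n : ℕ) (L : Fin n → Set X),
    IsSimpleChain n L ∧ (⋃ i, L i) = univ ∧ ∀ i, Metric.diam (L i) < ε

/-- A continuum is a nonempty compact connected metric space. -/
def IsContinuum (X : Type*) [MetricSpace X] : Prop := CompactSpace X ∧ ConnectedSpace X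

/-- A real curve is a continuum which is the image of the real line under a continuous injection. -/
def IsRealCurve (X : Type*) [MetricSpace X] : Prop :=
  IsContinuum X ∧ ∃ f : ℝ → X, Continuous f ∧ Function.Injective f ∧ Function.Surjective f

/-- Weakly chainable: a continuous image of a chainable continuum. -/
def WeaklyChainable (Y : Type*) [MetricSpace Y] : Prop :=
  ∃ (C : Type) (_ : MetricSpace C), IsContinuum C ∧ Chainable C ∧
    ∃ g : C → Y, Continuous g ∧ Function.Surjective g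

/-- boundary bumping -/
lemma bump {X : Type*} [TopologicalSpace X] [T2Space X] {C U : Set X} (hC : IsCompact C)
    (hconn : IsPreconnected C) (hU : IsOpen U) {x : X} (hxC : x ∈ C) (hxU : x ∈ U)
    (hCU : ¬ C ⊆ U) :
    ∃ D : Set X, IsCompact D ∧ IsPreconnected D ∧ D ⊆ C ∧ D ⊆ closure U ∧ x ∈ D ∧ ¬ D ⊆ U := by
  set K : Set X := C ∩ closure U with hK
  have hKc : IsCompact K := hC.inter_right isClosed_closure
  have hxK : x ∈ K := ⟨hxC, subset_closure hxU⟩
  have : CompactSpace K := isCompact_iff_compactSpace.mp hKc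
  let x' : K := ⟨x, hxK⟩
  refine ⟨Subtype.val '' connectedComponent x', ?_, ?_, ?_, ?_, ?_, ?_⟩
  · exact (isClosed_connectedComponent.isCompact).image continuous_subtype_val
  · exact isPreconnected_connectedComponent.image _ continuous_subtype_val.continuousOn
  · rintro _ ⟨y, -, rfl⟩; exact y.2.1
  · rintro _ ⟨y, -, rfl⟩; exact y.2.2
  · exact ⟨x', mem_connectedComponent, rfl⟩
  · intro hsub
    have h1 : connectedComponent x' ⊆ (Subtype.val ⁻¹' U : Set K) := by
      intro y hy; exact hsub ⟨y, hy, rfl⟩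
    rw [connectedComponent_eq_iInter_isClopen] at h1
    have hopen : IsOpen (Subtype.val ⁻¹' U : Set K) := hU.preimage continuous_subtype_val
    obtain ⟨Z, hZ, hZx, hZU⟩ : ∃ Z : Set K, IsClopen Z ∧ x' ∈ Z ∧ Z ⊆ Subtype.val ⁻¹' U := by
      have hcomp : IsCompact ((Subtype.val ⁻¹' U : Set K)ᶜ) := hopen.isClosed_compl.isCompact
      by_contra hno
      push Not at hno
      let ι := { Z : Set K // IsClopen Z ∧ x' ∈ Z }
      have hne : Nonempty ι := ⟨⟨univ, isClopen_univ, mem_univ _⟩⟩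
      have hdir : Directed (· ⊇ ·) (fun Z : ι => (Z : Set K)) := by
        intro Z1 Z2
        exact ⟨⟨Z1.1 ∩ Z2.1, Z1.2.1.inter Z2.2.1, Z1.2.2, Z2.2.2⟩, inter_subset_left, inter_subset_right⟩
      have hcl : ∀ Z : ι, IsClosed (Z : Set K) := fun Z => Z.2.1.isClosed
      have hne2 : (⋂ Z : ι, ((Z : Set K) ∩ (Subtype.val ⁻¹' U : Set K)ᶜ)).Nonempty := by
        apply IsCompact.nonempty_iInter_of_directed_nonempty_isCompact_isClosed
        · intro Z1 Z2
          refine ⟨⟨Z1.1 ∩ Z2.1, Z1.2.1.inter Z2.2.1, Z1.2.2, Z2.2.2⟩, ?_, ?_⟩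
          · rintro y ⟨hy1, hy2⟩; exact ⟨hy1.1, hy2⟩
          · rintro y ⟨hy1, hy2⟩; exact ⟨hy1.2, hy2⟩
        · intro Z
          obtain ⟨y, hy, hyU⟩ := Set.not_subset.mp (hno Z.1 Z.2.1 Z.2.2)
          exact ⟨y, hy, hyU⟩
        · intro Z; exact ((hcl Z).inter hopen.isClosed_compl).isCompact
        · intro Z; exact (hcl Z).inter hopen.isClosed_compl
      obtain ⟨y, hy⟩ := hne2
      rw [mem_iInter] at hy
      have hyU : y ∈ (Subtype.val ⁻¹' U : Set K) := by
        apply h1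
        rw [mem_iInter]
        intro Z
        exact (hy ⟨Z.1, Z.2.1, Z.2.2⟩).1
      exact (hy ⟨univ, isClopen_univ, mem_univ _⟩).2 hyU
    obtain ⟨O, hO, hOZ⟩ := isOpen_induced_iff.mp hZ.isOpen
    have hZc : IsClosed (Subtype.val '' Z : Set X) :=
      (hZ.isClosed.isCompact.image continuous_subtype_val).isClosed
    have hcov : C ⊆ (Subtype.val '' Z) ∪ (O ∩ U)ᶜ := by
      intro y hy
      by_cases hyO : y ∈ O ∩ U
      · left
        refine ⟨⟨y, hy, subset_closure hyO.2⟩, ?_, rfl⟩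
        rw [← hOZ]; exact hyO.1
      · right; exact hyO
    obtain ⟨w, hwC, hwU⟩ := Set.not_subset.mp hCU
    have := (isPreconnected_closed_iff.mp hconn) _ _ hZc (hO.inter hU).isClosed_compl hcov
      ⟨x, hxC, x', hZx, rfl⟩ ⟨w, hwC, fun h => hwU h.2⟩
    obtain ⟨y, hyC, ⟨y', hy'Z, rfl⟩, hyO⟩ := this
    apply hyO
    refine ⟨?_, hZU hy'Z⟩
    have : y' ∈ Subtype.val ⁻¹' O := by rw [hOZ]; exact hy'Z
    exact this

/-- Sierpinski's theorem -/
lemma sierp {X : Type*} [TopologicalSpace X] [T2Space X] [CompactSpace X] {C : Set X}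
    (hC : IsCompact C) (hconn : IsPreconnected C) (hne : C.Nonempty) (K : ℕ → Set X)
    (hK : ∀ n, IsClosed (K n)) (hd : ∀ n m, n ≠ m → Disjoint (K n) (K m))
    (hcov : C ⊆ ⋃ n, K n) : ∃ n, C ⊆ K n := by
  by_contra hno
  push Not at hno
  let P : Set X → Prop := fun D => IsCompact D ∧ IsPreconnected D ∧ D.Nonempty ∧ D ⊆ C ∧ ∀ n, ¬ D ⊆ K n
  have step : ∀ (D : Set X) (n : ℕ), P D → ∃ D' : Set X, P D' ∧ D' ⊆ D ∧ Disjoint D' (K n) := by
    rintro D n ⟨hD1, hD2, hD3, hD4, hD5⟩
    obtain ⟨x, hxD, hxn⟩ := Set.not_subset.mp (hD5 n)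
    obtain ⟨m, hxm⟩ := mem_iUnion.mp (hcov (hD4 hxD))
    have hmn : m ≠ n := by rintro rfl; exact hxn hxm
    have hdis : Disjoint (D ∩ K m) (K n) := (hd m n hmn).mono_left inter_subset_right
    obtain ⟨U, V, hU, hV, hUm, hVn, hUV⟩ :=
      normal_separation (hD1.isClosed.inter (hK m)) (hK n) hdis
    have hcl : Disjoint (closure U) (K n) := by
      have h1 : Disjoint (closure U) V := hUV.closure_left hV
      exact h1.mono_right hVn
    by_cases hDn : (D ∩ K n).Nonempty
    · have hDU : ¬ D ⊆ U := by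
        intro h
        obtain ⟨y, hy1, hy2⟩ := hDn
        exact (Set.disjoint_left.mp hcl) (subset_closure (h hy1)) hy2
      obtain ⟨E, hE1, hE2, hE3, hE4, hE5, hE6⟩ := bump hD1 hD2 hU hxD (hUm ⟨hxD, hxm⟩) hDU
      refine ⟨E, ⟨hE1, hE2, ⟨x, hE5⟩, hE3.trans hD4, ?_⟩, hE3, hcl.mono_left hE4⟩
      intro j hj
      have hjm : j = m := by
        by_contra hjm
        exact Set.disjoint_left.mp (hd j m hjm) (hj hE5) hxm
      subst hjm
      apply hE6
      intro y hy
      exact hUm ⟨hE3 hy, hj hy⟩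
    · refine ⟨D, ⟨hD1, hD2, hD3, hD4, hD5⟩, Subset.rfl, ?_⟩
      rw [Set.disjoint_iff_inter_eq_empty]
      exact Set.not_nonempty_iff_eq_empty.mp hDn
  choose! S hS1 hS2 hS3 using step
  let D : ℕ → Set X := fun n => Nat.rec C (fun k Dk => S Dk k) n
  have hD0 : D 0 = C := rfl
  have hDs : ∀ n, D (n+1) = S (D n) n := fun n => rfl
  have hPD : ∀ n, P (D n) := by
    intro n
    induction n with
    | zero => exact ⟨hC, hconn, hne, Subset.rfl, hno⟩
    | succ k ih => rw [hDs]; exact hS1 _ _ ih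
  have hmono : ∀ n, D (n+1) ⊆ D n := by
    intro n; rw [hDs]; exact hS2 _ _ (hPD n)
  have hint : (⋂ n, D n).Nonempty := by
    apply IsCompact.nonempty_iInter_of_sequence_nonempty_isCompact_isClosed
    · exact hmono
    · intro n; exact (hPD n).2.2.1
    · exact (hPD 0).1
    · intro n; exact (hPD n).1.isClosed
  obtain ⟨y, hy⟩ := hint
  rw [mem_iInter] at hy
  obtain ⟨n, hn⟩ := mem_iUnion.mp (hcov (hy 0))
  have := hy (n+1)
  rw [hDs] at this
  exact Set.disjoint_left.mp (hS3 _ _ (hPD n)) this hn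

/-- the set of limit points of `f` at `+∞` -/
def Lp {X : Type*} [TopologicalSpace X] (f : ℝ → X) : Set X := {x | MapClusterPt x atTop f}

/-- the set of limit points of `f` at `-∞` -/
def Lm {X : Type*} [TopologicalSpace X] (f : ℝ → X) : Set X := Lp (fun t => f (-t))

lemma mem_Lp_iff {X : Type*} [TopologicalSpace X] {f : ℝ → X} {x : X} :
    x ∈ Lp f ↔ ∃ U : Ultrafilter ℝ, (U : Filter ℝ) ≤ atTop ∧ Tendsto f U (𝓝 x) := by
  unfold Lp
  exact mapClusterPt_iff_ultrafilter

lemma mem_Lm_iff {X : Type*} [TopologicalSpace X] {f : ℝ → X} {x : X} :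
    x ∈ Lm f ↔ ∃ U : Ultrafilter ℝ, (U : Filter ℝ) ≤ atBot ∧ Tendsto f U (𝓝 x) := by
  unfold Lm
  rw [mem_Lp_iff]
  constructor
  · rintro ⟨U, hU, hf⟩
    refine ⟨U.map (fun t => -t), ?_, ?_⟩
    · rw [Ultrafilter.coe_map]
      exact tendsto_neg_atTop_atBot.mono_left hU
    · rw [Ultrafilter.coe_map]
      exact hf
  · rintro ⟨U, hU, hf⟩
    refine ⟨U.map (fun t => -t), ?_, ?_⟩
    · rw [Ultrafilter.coe_map]
      exact tendsto_neg_atBot_atTop.mono_left hU
    · rw [Ultrafilter.coe_map]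
      have : (fun t => f (-t)) ∘ (fun t : ℝ => -t) = f := by
        funext t; simp
      show Tendsto ((fun t => f (-t)) ∘ (fun t : ℝ => -t)) U (𝓝 x)
      rw [this]; exact hf

lemma isClosed_Lp {X : Type*} [TopologicalSpace X] (f : ℝ → X) : IsClosed (Lp f) :=
  isClosed_setOfPred_clusterPt

lemma Lp_nonempty {X : Type*} [TopologicalSpace X] [CompactSpace X] (f : ℝ → X) :
    (Lp f).Nonempty := exists_clusterPt_of_compactSpace (map f atTop)

/-- trichotomy for ultrafilters on the line -/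
lemma ultra_cases (U : Ultrafilter ℝ) :
    (∃ t, (U : Filter ℝ) ≤ 𝓝 t) ∨ (U : Filter ℝ) ≤ atTop ∨ (U : Filter ℝ) ≤ atBot := by
  by_cases h : (U : Filter ℝ) ≤ cocompact ℝ
  · rw [cocompact_eq_atBot_atTop] at h
    rcases (Ultrafilter.le_sup_iff.mp h) with h | h
    · right; right; exact h
    · right; left; exact h
  · left
    have : ∃ K : Set ℝ, IsCompact K ∧ K ∈ U := by
      by_contra hno
      push Not at hno
      apply h
      intro s hs
      obtain ⟨K, hK, hKs⟩ := mem_cocompact.mp hs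
      have h1 := hno K hK
      have h2 : Kᶜ ∈ U := Ultrafilter.compl_mem_iff_notMem.mpr h1
      exact mem_of_superset h2 hKs
    obtain ⟨K, hK, hKU⟩ := this
    obtain ⟨t, -, ht⟩ := hK.ultrafilter_le_nhds U (le_principal_iff.mpr hKU)
    exact ⟨t, ht⟩

lemma freq_ultra {α : Type*} {l : Filter α} {p : α → Prop} (h : ∃ᶠ t in l, p t) :
    ∃ U : Ultrafilter α, (U : Filter α) ≤ l ∧ ∀ᶠ t in (U : Filter α), p t := by
  have h1 : (l ⊓ 𝓟 {t | p t}).NeBot := by
    rw [← frequently_mem_iff_neBot]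
    exact h
  obtain ⟨U, hU⟩ := Ultrafilter.exists_le (l ⊓ 𝓟 {t | p t})
  exact ⟨U, hU.trans inf_le_left, le_principal_iff.mp (hU.trans inf_le_right)⟩

lemma isPreconnected_Lp {X : Type*} [TopologicalSpace X] [T2Space X] [CompactSpace X] {f : ℝ → X}
    (hf : Continuous f) : IsPreconnected (Lp f) := by
  rw [isPreconnected_iff_subset_of_fully_disjoint_closed (isClosed_Lp f)]
  intro u v hu hv huv hd
  by_contra hno
  push Not at hno
  obtain ⟨hnu, hnv⟩ := hno
  obtain ⟨x, hx, hxu⟩ := Set.not_subset.mp hnu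
  obtain ⟨y, hy, hyv⟩ := Set.not_subset.mp hnv
  have hxv : x ∈ v := (huv hx).resolve_left hxu
  have hyu : y ∈ u := (huv hy).resolve_right hyv
  obtain ⟨U, V, hU, hV, huU, hvV, hUV⟩ := normal_separation hu hv hd
  have hev : ∀ᶠ t in atTop, f t ∈ U ∪ V := by
    by_contra hne
    rw [not_eventually] at hne
    obtain ⟨W, hW, hWs⟩ := freq_ultra hne
    have hcomp : IsCompact ((U ∪ V)ᶜ) := (hU.union hV).isClosed_compl.isCompact
    have h2 : ((W.map f : Ultrafilter X) : Filter X) ≤ 𝓟 ((U ∪ V)ᶜ) := by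
      rw [le_principal_iff]
      exact hWs
    obtain ⟨z, hz, hzW⟩ := hcomp.ultrafilter_le_nhds _ h2
    have hzL : z ∈ Lp f := mem_Lp_iff.mpr ⟨W, hW, hzW⟩
    rcases huv hzL with h | h
    · exact hz (Or.inl (huU h))
    · exact hz (Or.inr (hvV h))
  obtain ⟨T, hT⟩ := eventually_atTop.mp hev
  have hpre : IsPreconnected (f '' Ici T) := isPreconnected_Ici.image f hf.continuousOn
  have hsub : f '' Ici T ⊆ U ∪ V := by
    rintro _ ⟨t, ht, rfl⟩; exact hT t ht
  have hxV : (f '' Ici T ∩ V).Nonempty := by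
    have h1 : ∃ᶠ t in atTop, f t ∈ V := MapClusterPt.frequently hx (hV.mem_nhds (hvV hxv))
    obtain ⟨t, ht1, ht2⟩ := (h1.and_eventually (eventually_ge_atTop T)).exists
    exact ⟨f t, ⟨t, ht2, rfl⟩, ht1⟩
  have hyU : (f '' Ici T ∩ U).Nonempty := by
    have h1 : ∃ᶠ t in atTop, f t ∈ U := MapClusterPt.frequently hy (hU.mem_nhds (huU hyu))
    obtain ⟨t, ht1, ht2⟩ := (h1.and_eventually (eventually_ge_atTop T)).exists
    exact ⟨f t, ⟨t, ht2, rfl⟩, ht1⟩
  obtain ⟨z, -, hzU, hzV⟩ := hpre U V hU hV hsub hyU hxV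
  exact Set.disjoint_left.mp hUV hzU hzV

lemma gaps (P : ℝ → Prop) (h : ∀ c, ∃ g, c < g ∧ P g) :
    ∃ r : ℕ → ℝ, Monotone r ∧ (∀ n : ℕ, (n : ℝ) ≤ r n) ∧ ∀ n, P (r n) := by
  choose R hR1 hR2 using h
  let r : ℕ → ℝ := fun n => Nat.rec (R 0) (fun k rk => R (max rk (k + 1))) n
  have h0 : r 0 = R 0 := rfl
  have hs : ∀ k, r (k + 1) = R (max (r k) (k + 1)) := fun k => rfl
  refine ⟨r, ?_, ?_, ?_⟩
  · apply monotone_nat_of_le_succ
    intro n
    rw [hs]
    exact (le_max_left _ _).trans (hR1 _).le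
  · intro n
    cases n with
    | zero => rw [h0]; simpa using (hR1 0).le
    | succ k =>
      rw [hs]
      push_cast
      exact (le_max_right _ _).trans (hR1 _).le
  · intro n
    cases n with
    | zero => rw [h0]; exact hR2 _
    | succ k => rw [hs]; exact hR2 _

/-- if a continuum is exhausted by an increasing sequence of relatively clopen pieces, it equals one of them -/
lemma exhaust {X : Type*} [TopologicalSpace X] [T2Space X] [CompactSpace X] {f : ℝ → X}
    (hi : Function.Injective f) {C : Set X} (hC : IsCompact C) (hconn : IsPreconnected C)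
    (hne : C.Nonempty) (hCf : C ⊆ range f) (J : ℕ → Set ℝ) (hJ : Monotone J)
    (hJu : ⋃ n, J n = univ) (h0 : IsClosed (f '' (f ⁻¹' C ∩ J 0)))
    (h1 : ∀ n, IsClosed (f '' (f ⁻¹' C ∩ (J (n+1) \ J n)))) : ∃ n, f ⁻¹' C ⊆ J n := by
  let S : ℕ → Set ℝ := fun n => Nat.casesOn n (J 0) (fun k => J (k+1) \ J k)
  have hS0 : S 0 = J 0 := rfl
  have hSs : ∀ k, S (k+1) = J (k+1) \ J k := fun k => rfl
  have hSJ : ∀ n, S n ⊆ J n := by
    intro n
    cases n with
    | zero => exact Subset.rfl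
    | succ k => rw [hSs]; exact sdiff_subset
  have hSd : ∀ n m, n < m → Disjoint (S n) (S m) := by
    intro n m hnm
    cases m with
    | zero => omega
    | succ k =>
      rw [hSs, Set.disjoint_left]
      intro t ht ht2
      exact ht2.2 (hJ (Nat.lt_succ_iff.mp hnm) (hSJ n ht))
  have hSu : ∀ t, ∃ n, t ∈ S n := by
    intro t
    have : ∃ n, t ∈ J n := by
      have : t ∈ ⋃ n, J n := by rw [hJu]; trivial
      exact mem_iUnion.mp this
    classical
    let n := Nat.find this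
    have hn : t ∈ J n := Nat.find_spec this
    refine ⟨n, ?_⟩
    rcases Nat.eq_zero_or_pos n with h | h
    · rw [h, hS0]; rw [h] at hn; exact hn
    · obtain ⟨k, hk⟩ : ∃ k, n = k + 1 := ⟨n - 1, by omega⟩
      rw [hk, hSs]
      rw [hk] at hn
      refine ⟨hn, ?_⟩
      exact Nat.find_min this (by omega : k < n)
  have hcl : ∀ n, IsClosed (f '' (f ⁻¹' C ∩ S n)) := by
    intro n
    cases n with
    | zero => exact h0
    | succ k => exact h1 k
  have hdis : ∀ n m, n ≠ m → Disjoint (f '' (f ⁻¹' C ∩ S n)) (f '' (f ⁻¹' C ∩ S m)) := by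
    have key : ∀ n m, n < m → Disjoint (f '' (f ⁻¹' C ∩ S n)) (f '' (f ⁻¹' C ∩ S m)) := by
      intro n m hnm
      rw [Set.disjoint_left]
      rintro _ ⟨t, ht, rfl⟩ ⟨t', ht', he⟩
      have := hi he
      subst this
      exact Set.disjoint_left.mp (hSd n m hnm) ht.2 ht'.2
    intro n m hnm
    rcases lt_or_gt_of_ne hnm with h | h
    · exact key n m h
    · exact (key m n h).symm
  obtain ⟨n, hn⟩ := sierp hC hconn hne _ hcl hdis (by
    intro x hx
    obtain ⟨t, rfl⟩ := hCf hx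
    obtain ⟨n, hn⟩ := hSu t
    exact mem_iUnion.mpr ⟨n, t, ⟨hx, hn⟩, rfl⟩)
  refine ⟨n, ?_⟩
  intro t ht
  obtain ⟨t', ht', he⟩ := hn ht
  have := hi he
  subst this
  exact hSJ n ht'.2

/-- a continuum whose parameter set contains no half line has bounded parameter set -/
lemma bdd_of_gaps {X : Type*} [TopologicalSpace X] [T2Space X] [CompactSpace X] {f : ℝ → X}
    (hc : Continuous f)
    (hi : Function.Injective f) {C : Set X} (hC : IsCompact C) (hconn : IsPreconnected C)
    (hne : C.Nonempty) (hCf : C ⊆ range f)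
    (hr : ∀ c, ∃ g, c < g ∧ g ∉ f ⁻¹' C) (hl : ∀ c, ∃ g, g < c ∧ g ∉ f ⁻¹' C) :
    ∃ N, f ⁻¹' C ⊆ Icc (-N) N := by
  obtain ⟨r, hr1, hr2, hr3⟩ := gaps (fun g => g ∉ f ⁻¹' C) hr
  obtain ⟨l, hl1, hl2, hl3⟩ := gaps (fun g => -g ∉ f ⁻¹' C) (by
    intro c
    obtain ⟨g, hg1, hg2⟩ := hl (-c)
    exact ⟨-g, by linarith, by simpa using hg2⟩)
  have hcF : IsClosed (f ⁻¹' C) := hC.isClosed.preimage hc
  obtain ⟨n, hn⟩ := exhaust hi hC hconn hne hCf (fun n => Icc (-(l n)) (r n)) (by
      intro n m hnm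
      exact Icc_subset_Icc (neg_le_neg (hl1 hnm)) (hr1 hnm)) (by
      ext t
      simp only [mem_iUnion, mem_univ, iff_true]
      obtain ⟨n, hn⟩ := exists_nat_ge |t|
      refine ⟨n, ?_, ?_⟩
      · have := neg_abs_le t
        have := hl2 n
        linarith
      · have := le_abs_self t
        have := hr2 n
        linarith)
    ((((isCompact_Icc).inter_left hcF).image hc).isClosed) (by
      intro n
      have : f ⁻¹' C ∩ (Icc (-(l (n+1))) (r (n+1)) \ Icc (-(l n)) (r n)) =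
          (f ⁻¹' C ∩ Icc (-(l (n+1))) (r (n+1))) ∩ (Ioo (-(l n)) (r n))ᶜ := by
        ext t
        constructor
        · rintro ⟨h1, h2, h3⟩
          exact ⟨⟨h1, h2⟩, fun h => h3 ⟨h.1.le, h.2.le⟩⟩
        · rintro ⟨⟨h1, h2⟩, h3⟩
          refine ⟨h1, h2, fun h => h3 ⟨lt_of_le_of_ne h.1 ?_, lt_of_le_of_ne h.2 ?_⟩⟩
          · intro he; rw [← he] at h1; exact hl3 n h1
          · intro he; rw [he] at h1; exact hr3 n h1
      rw [this]
      exact (((isCompact_Icc.inter_left hcF).inter_right isOpen_Ioo.isClosed_compl).image hc).isClosed)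
  refine ⟨max (l n) (r n), hn.trans (Icc_subset_Icc ?_ ?_)⟩
  · exact neg_le_neg (le_max_left _ _)
  · exact le_max_right _ _

/-- Baire category: the parameter set of the limit set at `+∞` contains no right half line -/
lemma no_right {X : Type*} [TopologicalSpace X] [T2Space X] [CompactSpace X] {f : ℝ → X}
    (hc : Continuous f) (hi : Function.Injective f) (hs : Function.Surjective f) (c : ℝ) :
    ∃ g, c < g ∧ g ∉ f ⁻¹' (Lp f) := by
  by_contra hno
  push Not at hno
  have hcomp : CompactSpace (Lp f) := isCompact_iff_compactSpace.mp (isClosed_Lp f).isCompact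
  have hne : Nonempty (Lp f) := (Lp_nonempty f).to_subtype
  have hcl : ∀ n : ℕ, IsClosed (Subtype.val ⁻¹' (f '' Icc (-(n:ℝ)) n) : Set (Lp f)) := by
    intro n
    exact ((isCompact_Icc.image hc).isClosed).preimage continuous_subtype_val
  have hcov : ⋃ n : ℕ, (Subtype.val ⁻¹' (f '' Icc (-(n:ℝ)) n) : Set (Lp f)) = univ := by
    ext x
    simp only [mem_iUnion, mem_univ, iff_true]
    obtain ⟨t, ht⟩ := hs x.1
    obtain ⟨n, hn⟩ := exists_nat_ge |t|
    exact ⟨n, t, abs_le.mp hn, ht⟩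
  obtain ⟨n, x, hx⟩ := nonempty_interior_of_iUnion_of_closed hcl hcov
  obtain ⟨O, hOs, hO, hxO⟩ := mem_interior.mp hx
  obtain ⟨W, hW, hWO⟩ := isOpen_induced_iff.mp hO
  have hxW : x.1 ∈ W := by
    have : x ∈ Subtype.val ⁻¹' W := by rw [hWO]; exact hxO
    exact this
  have h1 : ∃ᶠ t in atTop, f t ∈ W := MapClusterPt.frequently x.2 (hW.mem_nhds hxW)
  obtain ⟨t, ht1, ht2⟩ := (h1.and_eventually (eventually_gt_atTop (max c n))).exists
  have htL : f t ∈ Lp f := hno t (lt_of_le_of_lt (le_max_left _ _) ht2)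
  have h2 : (⟨f t, htL⟩ : Lp f) ∈ O := by
    rw [← hWO]; exact ht1
  obtain ⟨t', ht', he⟩ := hOs h2
  have := hi he
  subst this
  have := ht'.2
  have h3 : (n:ℝ) < t' := lt_of_le_of_lt (le_max_right _ _) ht2
  linarith

/-- the parameter set is bounded -/
def Bd (S : Set ℝ) : Prop := ∃ N : ℝ, S ⊆ Icc (-N) N

lemma Lp_neg {X : Type*} [TopologicalSpace X] (f : ℝ → X) : Lp (fun t => f (-t)) = Lm f := rfl

lemma Lm_neg {X : Type*} [TopologicalSpace X] (f : ℝ → X) : Lm (fun t => f (-t)) = Lp f := by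
  unfold Lm
  congr 1
  funext t
  show f (- -t) = f t
  rw [neg_neg]

lemma Bd_neg {X : Type*} {f : ℝ → X} {C : Set X} (h : Bd (f ⁻¹' C)) :
    Bd ((fun t => f (-t)) ⁻¹' C) := by
  obtain ⟨N, hN⟩ := h
  refine ⟨N, fun t ht => ?_⟩
  have := hN (show -t ∈ f ⁻¹' C from ht)
  exact ⟨by linarith [this.2], by linarith [this.1]⟩

lemma Bd_neg_iff {X : Type*} {f : ℝ → X} {C : Set X} :
    Bd ((fun t => f (-t)) ⁻¹' C) ↔ Bd (f ⁻¹' C) := by
  constructor
  · intro h
    have := Bd_neg h
    simpa using this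
  · exact Bd_neg

lemma no_left {X : Type*} [TopologicalSpace X] [T2Space X] [CompactSpace X] {f : ℝ → X}
    (hc : Continuous f) (hi : Function.Injective f) (hs : Function.Surjective f) (c : ℝ) :
    ∃ g, g < c ∧ g ∉ f ⁻¹' (Lm f) := by
  have h1 : Continuous (fun t => f (-t)) := hc.comp continuous_neg
  have h2 : Function.Injective (fun t => f (-t)) := hi.comp neg_injective
  have h3 : Function.Surjective (fun t => f (-t)) := hs.comp neg_surjective
  obtain ⟨g, hg1, hg2⟩ := no_right h1 h2 h3 (-c)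
  exact ⟨-g, by linarith, hg2⟩

lemma closure_cases {X : Type*} [TopologicalSpace X] [T2Space X] {f : ℝ → X}
    (hc : Continuous f) {S : Set ℝ} (hS : IsClosed S) {M : ℝ} (hM : ∀ t ∈ S, t ≤ M) {x : X}
    (hx : x ∈ closure (f '' S)) : x ∈ f '' S ∨ x ∈ Lm f := by
  obtain ⟨u, hu, hux⟩ := mem_closure_iff_ultrafilter.mp hx
  let V := Ultrafilter.ofComapInfPrincipal hu
  have hVS : S ∈ V := Ultrafilter.ofComapInfPrincipal_mem hu
  have hVm : V.map f = u := Ultrafilter.ofComapInfPrincipal_eq_of_map hu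
  have hVx : Tendsto f V (𝓝 x) := by
    show Filter.map f (V : Filter ℝ) ≤ 𝓝 x
    rw [← Ultrafilter.coe_map, hVm]; exact hux
  rcases ultra_cases V with ⟨t, ht⟩ | h | h
  · left
    have htS : t ∈ S := by
      have := hS.mem_of_tendsto (f := id) (b := (V : Filter ℝ)) (x := t) (tendsto_id'.mpr ht) hVS
      exact this
    have h1 : Tendsto f V (𝓝 (f t)) := (hc.tendsto t).mono_left ht
    exact ⟨t, htS, tendsto_nhds_unique h1 hVx⟩
  · exfalso
    have h1 : Ioi M ∈ (V : Filter ℝ) := h (Ioi_mem_atTop M)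
    have h2 := (V : Filter ℝ).inter_mem h1 hVS
    obtain ⟨t, ht1, ht2⟩ := V.nonempty_of_mem h2
    have := hM t ht2
    exact absurd ht1 (by simpa using this)
  · right
    exact mem_Lm_iff.mpr ⟨V, h, hVx⟩

lemma Lm_sub_of_Iic {X : Type*} [TopologicalSpace X] [T2Space X] {f : ℝ → X} {c : ℝ} {C : Set X}
    (hC : IsClosed C) (h : Iic c ⊆ f ⁻¹' C) : Lm f ⊆ C := by
  intro x hx
  obtain ⟨U, hU, hUx⟩ := mem_Lm_iff.mp hx
  exact hC.mem_of_tendsto hUx (by
    filter_upwards [hU (Iic_mem_atBot c)] with t ht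
    exact h ht)

lemma Lp_sub_of_Ici {X : Type*} [TopologicalSpace X] [T2Space X] {f : ℝ → X} {c : ℝ} {C : Set X}
    (hC : IsClosed C) (h : Ici c ⊆ f ⁻¹' C) : Lp f ⊆ C := by
  intro x hx
  obtain ⟨U, hU, hUx⟩ := mem_Lp_iff.mp hx
  exact hC.mem_of_tendsto hUx (by
    filter_upwards [hU (Ici_mem_atTop c)] with t ht
    exact h ht)

/-- the second type of real curves: the limit set at `+∞` contains a left half line -/
def TypeII {X : Type*} [TopologicalSpace X] (f : ℝ → X) : Prop :=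
  Bd (f ⁻¹' Lm f) ∧ (∃ c, Iic c ⊆ f ⁻¹' Lp f) ∧ ∃ M, ∀ t ∈ f ⁻¹' Lp f, t ≤ M

/-- half of the dichotomy -/
lemma Lp_cases {X : Type*} [TopologicalSpace X] [T2Space X] [CompactSpace X] {f : ℝ → X}
    (hc : Continuous f) (hi : Function.Injective f) (hs : Function.Surjective f) :
    Bd (f ⁻¹' Lp f) ∨ ∃ c, Iic c ⊆ f ⁻¹' Lp f := by
  by_cases h : ∃ c, Iic c ⊆ f ⁻¹' Lp f
  · right; exact h
  · left
    push Not at h
    exact bdd_of_gaps hc hi (isClosed_Lp f).isCompact (isPreconnected_Lp hc) (Lp_nonempty f)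
      (fun x _ => hs x) (no_right hc hi hs) (by
        intro c
        obtain ⟨g, hg1, hg2⟩ := Set.not_subset.mp (h (c - 1))
        exact ⟨g, by have : g ≤ c - 1 := hg1
                     linarith, hg2⟩)

lemma typeII_of {X : Type*} [TopologicalSpace X] [T2Space X] [CompactSpace X] {f : ℝ → X}
    (hc : Continuous f) (hi : Function.Injective f) (hs : Function.Surjective f)
    (h1 : Bd (f ⁻¹' Lm f)) (h2 : ∃ c, Iic c ⊆ f ⁻¹' Lp f) : TypeII f := by
  refine ⟨h1, h2, ?_⟩
  obtain ⟨N, hN⟩ := h1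
  obtain ⟨c, hcc⟩ := h2
  have hsub : Lm f ⊆ Lp f := Lm_sub_of_Iic (isClosed_Lp f) hcc
  obtain ⟨r, hr1, hr2, hr3⟩ := gaps (fun g => g ∉ f ⁻¹' Lp f) (no_right hc hi hs)
  obtain ⟨K, hK⟩ := exists_nat_ge N
  have hcF : IsClosed (f ⁻¹' Lp f) := (isClosed_Lp f).preimage hc
  obtain ⟨n, hn⟩ := exhaust hi (isClosed_Lp f).isCompact (isPreconnected_Lp hc) (Lp_nonempty f)
    (fun x _ => hs x) (fun n => Iic (r (n + K))) (by
      intro n m hnm
      exact Iic_subset_Iic.mpr (hr1 (by omega))) (by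
      ext t
      simp only [mem_iUnion, mem_univ, iff_true]
      obtain ⟨n, hn⟩ := exists_nat_ge t
      refine ⟨n, ?_⟩
      have h3 := hr2 (n + K)
      push_cast at h3
      have h4 : (0:ℝ) ≤ K := Nat.cast_nonneg K
      show t ≤ r (n + K)
      linarith) (by
      rw [← closure_subset_iff_isClosed]
      intro x hx
      rcases closure_cases hc (hcF.inter isClosed_Iic) (M := r (0 + K)) (fun t ht => ht.2) hx with h | h
      · exact h
      · obtain ⟨t, rfl⟩ := hs x
        refine ⟨t, ⟨hsub h, ?_⟩, rfl⟩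
        have h3 := (hN h).2
        have h4 := hr2 (0 + K)
        push_cast at h4
        show t ≤ r (0 + K)
        linarith) (by
      intro n
      have : f ⁻¹' Lp f ∩ (Iic (r (n + 1 + K)) \ Iic (r (n + K))) =
          f ⁻¹' Lp f ∩ Icc (r (n + K)) (r (n + 1 + K)) := by
        ext t
        constructor
        · rintro ⟨h3, h4, h5⟩
          refine ⟨h3, ?_, h4⟩
          have : ¬ t ≤ r (n + K) := h5
          linarith
        · rintro ⟨h3, h4, h5⟩
          refine ⟨h3, h5, ?_⟩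
          intro h6
          have h7 : t = r (n + K) := le_antisymm h6 h4
          rw [h7] at h3
          exact hr3 _ h3
      show IsClosed (f '' (f ⁻¹' Lp f ∩ (Iic (r (n + 1 + K)) \ Iic (r (n + K)))))
      rw [this]
      exact ((isCompact_Icc.inter_left hcF).image hc).isClosed)
  exact ⟨r (n + K), fun t ht => hn ht⟩

/-- structure theorem for real curves -/
theorem structure_thm {X : Type*} [TopologicalSpace X] [T2Space X] [CompactSpace X] {f : ℝ → X}
    (hc : Continuous f) (hi : Function.Injective f) (hs : Function.Surjective f) :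
    (Bd (f ⁻¹' Lp f) ∧ Bd (f ⁻¹' Lm f)) ∨ TypeII f ∨ TypeII (fun t => f (-t)) := by
  have h1 : Continuous (fun t => f (-t)) := hc.comp continuous_neg
  have h2 : Function.Injective (fun t => f (-t)) := hi.comp neg_injective
  have h3 : Function.Surjective (fun t => f (-t)) := hs.comp neg_surjective
  rcases Lp_cases hc hi hs with hp | hp
  · rcases Lp_cases h1 h2 h3 with hm | hm
    · left
      exact ⟨hp, Bd_neg_iff.mp hm⟩
    · right; right
      apply typeII_of h1 h2 h3 _ hm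
      rw [Lm_neg]
      exact Bd_neg hp
  · rcases Lp_cases h1 h2 h3 with hm | hm
    · right; left
      exact typeII_of hc hi hs (Bd_neg_iff.mp hm) hp
    · exfalso
      obtain ⟨c, hcp⟩ := hp
      obtain ⟨d, hd⟩ := hm
      have e1 : Lm f ⊆ Lp f := Lm_sub_of_Iic (isClosed_Lp f) hcp
      obtain ⟨g, hg1, hg2⟩ := no_right hc hi hs (-d)
      apply hg2
      apply e1
      have : (-g) ∈ Iic d := by
        show -g ≤ d
        linarith
      have h5 := hd this
      have h6 : f (- -g) ∈ Lm f := h5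
      rw [neg_neg] at h6
      exact h6

/-- lifting of paths through the parametrisation of a real curve with nondegenerate ends -/
lemma lift_cont {Y : Type*} [MetricSpace Y] [CompactSpace Y] {f : ℝ → Y}
    (hc : Continuous f) (hi : Function.Injective f) (hs : Function.Surjective f)
    (hp : (Lp f).Nontrivial) (hm : (Lm f).Nontrivial) {h : ℝ → ℝ}
    (hh : Continuous (fun t => f (h t))) : Continuous h := by
  rw [continuous_iff_continuousAt]
  intro t0
  obtain ⟨x, hx, y, hy, hxy⟩ := hp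
  obtain ⟨x', hx', y', hy', hxy'⟩ := hm
  have hd1 : 0 < dist x y := dist_pos.mpr hxy
  have hd2 : 0 < dist x' y' := dist_pos.mpr hxy'
  set δ := min (dist x y) (dist x' y') with hδ
  have hδ0 : 0 < δ := lt_min hd1 hd2
  obtain ⟨η, hη, hηp⟩ := Metric.continuousAt_iff.mp (hh.continuousAt (x := t0)) (δ / 2) (by positivity)
  set I := Icc (t0 - η / 2) (t0 + η / 2) with hI
  set C := (fun t => f (h t)) '' I with hCdef
  have hCc : IsCompact C := isCompact_Icc.image hh
  have hCconn : IsPreconnected C := isPreconnected_Icc.image _ hh.continuousOn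
  have ht0 : t0 ∈ I := ⟨by linarith, by linarith⟩
  have hCne : C.Nonempty := ⟨_, t0, ht0, rfl⟩
  have hCd : ∀ a ∈ C, ∀ b ∈ C, dist a b < δ := by
    rintro _ ⟨s, hsI, rfl⟩ _ ⟨t, htI, rfl⟩
    have h1 := hηp (x := s) (by rw [Real.dist_eq, abs_lt]; constructor <;> linarith [hsI.1, hsI.2])
    have h2 := hηp (x := t) (by rw [Real.dist_eq, abs_lt]; constructor <;> linarith [htI.1, htI.2])
    calc dist (f (h s)) (f (h t)) ≤ dist (f (h s)) (f (h t0)) + dist (f (h t)) (f (h t0)) :=
          dist_triangle_right _ _ _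
      _ < δ := by linarith
  have hr : ∀ c, ∃ g, c < g ∧ g ∉ f ⁻¹' C := by
    intro c
    by_contra hno
    push Not at hno
    have h1 : Lp f ⊆ C := Lp_sub_of_Ici (c := c + 1) hCc.isClosed (fun t ht => hno t (by
      have : c + 1 ≤ t := ht
      linarith))
    have h2 := hCd x (h1 hx) y (h1 hy)
    have h3 : δ ≤ dist x y := min_le_left _ _
    linarith
  have hl : ∀ c, ∃ g, g < c ∧ g ∉ f ⁻¹' C := by
    intro c
    by_contra hno
    push Not at hno
    have h1 : Lm f ⊆ C := Lm_sub_of_Iic (c := c - 1) hCc.isClosed (fun t ht => hno t (by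
      have : t ≤ c - 1 := ht
      linarith))
    have h2 := hCd x' (h1 hx') y' (h1 hy')
    have h3 : δ ≤ dist x' y' := min_le_right _ _
    linarith
  obtain ⟨N, hN⟩ := bdd_of_gaps hc hi hCc hCconn hCne (fun x _ => hs x) hr hl
  show Tendsto h (𝓝 t0) (𝓝 (h t0))
  rw [tendsto_iff_ultrafilter]
  intro U hU
  have hIU : I ∈ (U : Filter ℝ) := hU (Icc_mem_nhds (by linarith) (by linarith))
  have h1 : Icc (-N) N ∈ (U.map h : Filter ℝ) := by
    show ∀ᶠ t in (U : Filter ℝ), h t ∈ Icc (-N) N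
    filter_upwards [hIU] with t ht
    exact hN ⟨t, ht, rfl⟩
  obtain ⟨s, -, hsU⟩ := isCompact_Icc.ultrafilter_le_nhds (U.map h) (le_principal_iff.mpr h1)
  have h2 : Tendsto h U (𝓝 s) := hsU
  have h3 : Tendsto (fun t => f (h t)) U (𝓝 (f s)) := (hc.tendsto s).comp h2
  have h4 : Tendsto (fun t => f (h t)) U (𝓝 (f (h t0))) := (hh.tendsto t0).mono_left hU
  have h5 : s = h t0 := hi (tendsto_nhds_unique h3 h4)
  rw [← h5]
  exact h2

section core

variable {X Y : Type*} [MetricSpace X] [CompactSpace X] [MetricSpace Y] [CompactSpace Y]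
  {fX : ℝ → X} {fY : ℝ → Y} {g : X → Y} {h : ℝ → ℝ}

lemma claim1 (hsX : Function.Surjective fX)
    (hiY : Function.Injective fY)
    (hg : Continuous g) (hh : Continuous h) (hgh : ∀ t, fY (h t) = g (fX t))
    (hub : ∀ T M, ∃ t, T ≤ t ∧ M < h t) (hnot : ¬ Tendsto h atTop atTop) :
    ∃ s0, ∀ s, s0 ≤ s → ∃ τ ∈ fX ⁻¹' Lp fX, h τ = s := by
  rw [tendsto_atTop] at hnot
  push Not at hnot
  obtain ⟨b, hb⟩ := hnot
  refine ⟨b, fun s hs => ?_⟩
  have hfr : ∃ᶠ t in atTop, h t = s := by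
    rw [frequently_atTop]
    intro T
    obtain ⟨t1, ht1, hb1⟩ := frequently_atTop.mp (not_eventually.mp hb) T
    obtain ⟨t2, ht2, hb2⟩ := hub t1 s
    have := intermediate_value_Icc ht2 hh.continuousOn
    obtain ⟨t, ht, hts⟩ := this ⟨(by push Not at hb1; linarith : h t1 ≤ s), hb2.le⟩
    exact ⟨t, ht1.trans ht.1, hts⟩
  obtain ⟨U, hU, hUs⟩ := freq_ultra hfr
  obtain ⟨x, -, hx⟩ := isCompact_univ.ultrafilter_le_nhds (U.map fX) (by simp)
  have hx' : Tendsto fX U (𝓝 x) := hx
  obtain ⟨τ, rfl⟩ := hsX x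
  refine ⟨τ, mem_Lp_iff.mpr ⟨U, hU, hx'⟩, ?_⟩
  have h1 : Tendsto (fun t => g (fX t)) U (𝓝 (g (fX τ))) := (hg.tendsto _).comp hx'
  have h2 : Tendsto (fun t => g (fX t)) U (𝓝 (fY s)) := by
    apply tendsto_const_nhds.congr'
    filter_upwards [hUs] with t ht
    rw [← hgh, ht]
  have h3 := tendsto_nhds_unique h1 h2
  rw [← hgh] at h3
  exact hiY h3

lemma claim2a (hg : Continuous g) (hgh : ∀ t, fY (h t) = g (fX t))
    (ht : Tendsto h atTop atTop) {τ : ℝ} (hτ : τ ∈ fX ⁻¹' Lp fX) : h τ ∈ fY ⁻¹' Lp fY := by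
  obtain ⟨U, hU, hUx⟩ := mem_Lp_iff.mp hτ
  refine mem_Lp_iff.mpr ⟨U.map h, ?_, ?_⟩
  · exact ht.mono_left hU
  · show Tendsto (fun t => fY (h t)) U (𝓝 (fY (h τ)))
    simp only [hgh]
    exact (hg.tendsto _).comp hUx

lemma claim2b (hsX : Function.Surjective fX)
    (hiY : Function.Injective fY)
    (hg : Continuous g) (hh : Continuous h) (hgh : ∀ t, fY (h t) = g (fX t))
    (ht : Tendsto h atTop atTop) {s : ℝ} (hs : s ∈ fY ⁻¹' Lp fY) :
    ∃ τ ∈ fX ⁻¹' Lp fX, h τ = s := by
  have h1 : fY s ∈ Lp (fun t => g (fX t)) := by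
    show MapClusterPt (fY s) atTop (fun t => g (fX t))
    rw [mapClusterPt_iff_frequently]
    intro W hW
    rw [frequently_atTop]
    intro T
    obtain ⟨s', hs', hsW⟩ := frequently_atTop.mp (MapClusterPt.frequently hs hW) (h T)
    obtain ⟨t2, ht2⟩ := (((tendsto_atTop.mp ht s').and (eventually_ge_atTop T))).exists
    obtain ⟨t, htI, hts⟩ := intermediate_value_Icc ht2.2 hh.continuousOn ⟨hs', ht2.1⟩
    refine ⟨t, htI.1, ?_⟩
    show g (fX t) ∈ W
    rw [← hgh, hts]
    exact hsW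
  obtain ⟨U, hU, hUs⟩ := mem_Lp_iff.mp h1
  obtain ⟨x, -, hx⟩ := isCompact_univ.ultrafilter_le_nhds (U.map fX) (by simp)
  have hx' : Tendsto fX U (𝓝 x) := hx
  obtain ⟨τ, rfl⟩ := hsX x
  refine ⟨τ, mem_Lp_iff.mpr ⟨U, hU, hx'⟩, ?_⟩
  have h2 : Tendsto (fun t => g (fX t)) U (𝓝 (g (fX τ))) := (hg.tendsto _).comp hx'
  have h3 := tendsto_nhds_unique h2 hUs
  rw [← hgh] at h3
  exact hiY h3

lemma bdd_image (hh : Continuous h) {S : Set ℝ} (hS : Bd S) : ∃ B, ∀ t ∈ S, |h t| ≤ B := by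
  obtain ⟨N, hN⟩ := hS
  obtain ⟨B, hB⟩ := (isCompact_Icc (a := -N) (b := N)).exists_bound_of_continuousOn hh.continuousOn
  exact ⟨B, fun t ht => hB t (hN ht)⟩

lemma typeI_aux (hsX : Function.Surjective fX)
    (hiY : Function.Injective fY)
    (hg : Continuous g) (hh : Continuous h) (hgh : ∀ t, fY (h t) = g (fX t))
    (hub : ∀ T M, ∃ t, T ≤ t ∧ M < h t) (hb : Bd (fX ⁻¹' Lp fX)) : Bd (fY ⁻¹' Lp fY) := by
  obtain ⟨B, hB⟩ := bdd_image hh hb
  by_cases ht : Tendsto h atTop atTop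
  · refine ⟨B, fun s hs => ?_⟩
    obtain ⟨τ, hτ, rfl⟩ := claim2b hsX hiY hg hh hgh ht hs
    exact abs_le.mp (hB τ hτ)
  · exfalso
    obtain ⟨s0, hs0⟩ := claim1 hsX hiY hg hh hgh hub ht
    obtain ⟨τ, hτ, he⟩ := hs0 (max s0 (B + 1)) (le_max_left _ _)
    have h1 := (abs_le.mp (hB τ hτ)).2
    rw [he] at h1
    have h2 := le_max_right s0 (B + 1)
    linarith

lemma unb_cases (hh : Continuous h) (hsur : Function.Surjective h) :
    (∀ T M, ∃ t, T ≤ t ∧ M < h t) ∨ (∀ T M, ∃ t, t ≤ T ∧ M < h t) := by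
  by_contra hno
  push Not at hno
  obtain ⟨⟨T1, M1, h1⟩, ⟨T2, M2, h2⟩⟩ := hno
  obtain ⟨B, hB⟩ := (isCompact_Icc (a := T2) (b := T1)).exists_bound_of_continuousOn hh.continuousOn
  obtain ⟨t, ht⟩ := hsur (max B (max M1 M2) + 1)
  have e1 := le_max_left B (max M1 M2)
  have e2 := (le_max_left M1 M2).trans (le_max_right B (max M1 M2))
  have e3 := (le_max_right M1 M2).trans (le_max_right B (max M1 M2))
  rcases le_or_gt T1 t with h3 | h3
  · have := h1 t h3; linarith
  · rcases le_or_gt t T2 with h' | h'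
    · have := h2 t h'; linarith
    · have := hB t ⟨h'.le, h3.le⟩
      rw [Real.norm_eq_abs] at this
      have := le_abs_self (h t)
      linarith

lemma exists_lift (hcX : Continuous fX) (hcY : Continuous fY) (hiY : Function.Injective fY)
    (hsY : Function.Surjective fY) (hp : (Lp fY).Nontrivial) (hm : (Lm fY).Nontrivial)
    (hg : Continuous g) (hgs : Function.Surjective g) (hsX : Function.Surjective fX) :
    ∃ h : ℝ → ℝ, Continuous h ∧ Function.Surjective h ∧ ∀ t, fY (h t) = g (fX t) := by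
  choose h hh using fun t => hsY (g (fX t))
  refine ⟨h, ?_, ?_, hh⟩
  · apply lift_cont hcY hiY hsY hp hm
    simp only [hh]
    exact hg.comp hcX
  · intro s
    obtain ⟨x, hx⟩ := hgs (fY s)
    obtain ⟨t, rfl⟩ := hsX x
    refine ⟨t, hiY ?_⟩
    rw [hh, hx]

/-- a real curve of the first type cannot be mapped onto one whose right limit set is unbounded -/
theorem typeI_pres (hcX : Continuous fX) (hsX : Function.Surjective fX)
    (hcY : Continuous fY) (hiY : Function.Injective fY)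
    (hsY : Function.Surjective fY) (hp : (Lp fY).Nontrivial) (hm : (Lm fY).Nontrivial)
    (hg : Continuous g) (hgs : Function.Surjective g)
    (h1 : Bd (fX ⁻¹' Lp fX)) (h2 : Bd (fX ⁻¹' Lm fX)) : Bd (fY ⁻¹' Lp fY) := by
  obtain ⟨h, hh, hhs, hgh⟩ := exists_lift hcX hcY hiY hsY hp hm hg hgs hsX
  rcases unb_cases hh hhs with hu | hu
  · exact typeI_aux hsX hiY hg hh hgh hu h1
  · refine typeI_aux (fX := fun t => fX (-t)) (h := fun t => h (-t)) (hsX.comp neg_surjective) hiY hg
      (hh.comp continuous_neg) (fun t => hgh (-t)) ?_ (Bd_neg h2)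
    intro T M
    obtain ⟨t, ht, hM⟩ := hu (-T) M
    exact ⟨-t, by linarith, by rw [neg_neg]; exact hM⟩

lemma unb_left (hsX : Function.Surjective fX) (hiY : Function.Injective fY)
    (hg : Continuous g) (hh : Continuous h) (hgh : ∀ t, fY (h t) = g (fX t))
    (hb : Bd (fX ⁻¹' Lm fX)) (hu : ∀ T M, ∃ t, t ≤ T ∧ M < h t) : Tendsto h atBot atTop := by
  by_contra hno
  have h1 : ¬ Tendsto (fun t => h (-t)) atTop atTop := by
    intro h2
    apply hno
    have := h2.comp tendsto_neg_atBot_atTop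
    have e : (fun t => h (-t)) ∘ Neg.neg = h := by funext t; simp
    rw [e] at this
    exact this
  obtain ⟨s0, hs0⟩ := claim1 (fX := fun t => fX (-t)) (h := fun t => h (-t))
    (hsX.comp neg_surjective) hiY hg
    (hh.comp continuous_neg) (fun t => hgh (-t)) (by
      intro T M
      obtain ⟨t, ht, hM⟩ := hu (-T) M
      exact ⟨-t, by linarith, by rw [neg_neg]; exact hM⟩) h1
  obtain ⟨B, hB⟩ := bdd_image (hh.comp continuous_neg) (Bd_neg hb)
  obtain ⟨τ, hτ, he⟩ := hs0 (max s0 (B + 1)) (le_max_left _ _)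
  have h1 := (abs_le.mp (hB τ hτ)).2
  have he' : (h ∘ fun a => -a) τ = max s0 (B + 1) := he
  rw [he'] at h1
  have h2 := le_max_right s0 (B + 1)
  linarith

lemma above_left (hh : Continuous h) {T M1 : ℝ} (hT : ∀ t, t ≤ T → h t ≤ M1) (M : ℝ) :
    ∃ B, ∀ t, t ≤ M → h t ≤ B := by
  obtain ⟨B, hB⟩ := (isCompact_Icc (a := T) (b := M)).exists_bound_of_continuousOn hh.continuousOn
  refine ⟨max M1 B, fun t ht => ?_⟩
  rcases le_or_gt t T with h' | h'
  · exact (hT t h').trans (le_max_left _ _)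
  · have := hB t ⟨h'.le, ht⟩
    rw [Real.norm_eq_abs] at this
    exact ((le_abs_self _).trans this).trans (le_max_right _ _)

lemma unb_right (hsur : Function.Surjective h) (hb : ∀ M, ∃ B, ∀ t, t ≤ M → h t ≤ B) :
    ∀ T M, ∃ t, T ≤ t ∧ M < h t := by
  intro T M
  obtain ⟨B, hB⟩ := hb T
  obtain ⟨t, ht⟩ := hsur (max B M + 1)
  have e1 := le_max_left B M
  have e2 := le_max_right B M
  refine ⟨t, ?_, by linarith⟩
  by_contra hno
  push Not at hno
  have := hB t hno.le
  linarith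

lemma caseC (hsX : Function.Surjective fX) (hiY : Function.Injective fY)
    (hg : Continuous g) (hh : Continuous h) (hhs : Function.Surjective h)
    (hgh : ∀ t, fY (h t) = g (fX t)) (hX : TypeII fX) (hY : Bd (fY ⁻¹' Lp fY))
    (ht : Tendsto h atBot atBot) : False := by
  obtain ⟨-, ⟨c, hcc⟩, M, hM⟩ := hX
  obtain ⟨T, hT⟩ := eventually_atBot.mp (tendsto_atBot.mp ht 0)
  have hab := above_left hh hT
  have hub := unb_right hhs hab
  obtain ⟨B, hB⟩ := hab M
  by_cases htt : Tendsto h atTop atTop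
  · obtain ⟨N, hN⟩ := hY
    obtain ⟨t, ht1, ht2⟩ := ((tendsto_atBot.mp ht (-N - 1)).and (eventually_le_atBot c)).exists
    have := hN (claim2a hg hgh htt (hcc ht2))
    linarith [this.1]
  · obtain ⟨s0, hs0⟩ := claim1 hsX hiY hg hh hgh hub htt
    obtain ⟨τ, hτ, he⟩ := hs0 (max s0 (B + 1)) (le_max_left _ _)
    have h1 := hB τ (hM τ hτ)
    rw [he] at h1
    have h2 := le_max_right s0 (B + 1)
    linarith

lemma caseA (hsX : Function.Surjective fX) (hiY : Function.Injective fY)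
    (hg : Continuous g) (hh : Continuous h) (hhs : Function.Surjective h)
    (hgh : ∀ t, fY (h t) = g (fX t)) (hX : TypeII fX)
    (h1 : ¬ ∀ T M, ∃ t, t ≤ T ∧ M < h t) (h2 : ¬ ∀ T M, ∃ t, t ≤ T ∧ M < -h t) : False := by
  obtain ⟨-, -, M, hM⟩ := hX
  push Not at h1 h2
  obtain ⟨T1, M1, h1⟩ := h1
  obtain ⟨T2, M2, h2⟩ := h2
  have ha := above_left hh h1
  have hb := above_left (h := fun t => -h t) hh.neg h2
  have hub := unb_right hhs ha
  have hub2 := unb_right (h := fun t => -h t) (neg_surjective.comp hhs) hb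
  have htt : ¬ Tendsto h atTop atTop := by
    intro ht
    obtain ⟨T, hT⟩ := eventually_atTop.mp (tendsto_atTop.mp ht 0)
    obtain ⟨t, ht1, ht2⟩ := hub2 T 0
    have := hT t ht1
    linarith
  obtain ⟨B, hB⟩ := ha M
  obtain ⟨s0, hs0⟩ := claim1 hsX hiY hg hh hgh hub htt
  obtain ⟨τ, hτ, he⟩ := hs0 (max s0 (B + 1)) (le_max_left _ _)
  have h1 := hB τ (hM τ hτ)
  rw [he] at h1
  have h2 := le_max_right s0 (B + 1)
  linarith

/-- a real curve of the second type cannot be mapped onto a real curve of the first type with nondegenerate ends -/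
theorem typeII_no (hcX : Continuous fX) (hsX : Function.Surjective fX)
    (hcY : Continuous fY) (hiY : Function.Injective fY)
    (hsY : Function.Surjective fY) (hp : (Lp fY).Nontrivial) (hm : (Lm fY).Nontrivial)
    (hg : Continuous g) (hgs : Function.Surjective g) (hX : TypeII fX)
    (h1 : Bd (fY ⁻¹' Lp fY)) (h2 : Bd (fY ⁻¹' Lm fY)) : False := by
  obtain ⟨h, hh, hhs, hgh⟩ := exists_lift hcX hcY hiY hsY hp hm hg hgs hsX
  have hgh' : ∀ t, (fun s => fY (-s)) (-h t) = g (fX t) := by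
    intro t
    show fY (- -h t) = g (fX t)
    rw [neg_neg]
    exact hgh t
  by_cases hu1 : ∀ T M, ∃ t, t ≤ T ∧ M < h t
  · have ht := unb_left hsX hiY hg hh hgh hX.1 hu1
    exact caseC (fY := fun s => fY (-s)) (h := fun t => -h t) hsX (hiY.comp neg_injective) hg hh.neg
      (neg_surjective.comp hhs) hgh' hX (Bd_neg h2) (tendsto_neg_atTop_atBot.comp ht)
  · by_cases hu2 : ∀ T M, ∃ t, t ≤ T ∧ M < -h t
    · have ht := unb_left (fY := fun s => fY (-s)) (h := fun t => -h t) hsX (hiY.comp neg_injective)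
        hg hh.neg hgh' hX.1 hu2
      have ht' : Tendsto h atBot atBot := by
        have := tendsto_neg_atTop_atBot.comp ht
        have e : (Neg.neg ∘ fun t => -h t) = h := by funext t; simp
        rw [e] at this
        exact this
      exact caseC hsX hiY hg hh hhs hgh hX h1 ht'
    · exact caseA hsX hiY hg hh hhs hgh hX hu1 hu2

end core

/-- small-fibre maps to the line give chains -/
theorem chainable_of_maps {X : Type*} [MetricSpace X] [CompactSpace X] [ConnectedSpace X]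
    (h : ∀ ε : ℝ, 0 < ε → ∃ q : X → ℝ, Continuous q ∧ ∀ x y, q x = q y → dist x y < ε) :
    Chainable X := by
  intro ε hε
  obtain ⟨q, hq, hqf⟩ := h (ε / 2) (by positivity)
  -- modulus
  obtain ⟨δ, hδ, hδq⟩ : ∃ δ : ℝ, 0 < δ ∧ ∀ x y, |q x - q y| < δ → dist x y < ε / 2 := by
    let S : Set (X × X) := {p | ε / 2 ≤ dist p.1 p.2}
    have hS : IsCompact S := (isClosed_le continuous_const continuous_dist).isCompact
    by_cases hne : S.Nonempty
    · obtain ⟨p, hp, hmin⟩ := hS.exists_isMinOn hne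
        (f := fun p : X × X => |q p.1 - q p.2|)
        (((hq.comp continuous_fst).sub (hq.comp continuous_snd)).abs.continuousOn)
      have hpos : 0 < |q p.1 - q p.2| := by
        rw [abs_pos]
        intro h0
        have := hqf p.1 p.2 (by linarith)
        have h1 : ε / 2 ≤ dist p.1 p.2 := hp
        linarith
      refine ⟨_, hpos, fun x y hxy => ?_⟩
      by_contra hno
      push Not at hno
      have h1 : (x, y) ∈ S := hno
      have := hmin h1
      have h2 : |q p.1 - q p.2| ≤ |q x - q y| := this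
      linarith
    · refine ⟨1, one_pos, fun x y _ => ?_⟩
      by_contra hno
      push Not at hno
      exact hne ⟨(x, y), hno⟩
  -- range
  obtain ⟨xa, -, hxa⟩ := isCompact_univ.exists_isMinOn univ_nonempty (f := q) hq.continuousOn
  obtain ⟨xb, -, hxb⟩ := isCompact_univ.exists_isMaxOn univ_nonempty (f := q) hq.continuousOn
  set α := q xa with hα
  set β := q xb with hβ
  have hαle : ∀ x, α ≤ q x := fun x => hxa (mem_univ x)
  have hleβ : ∀ x, q x ≤ β := fun x => hxb (mem_univ x)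
  have hαβ : α ≤ β := hαle xb
  have hsurj : ∀ v, α ≤ v → v ≤ β → ∃ x, q x = v := by
    intro v h1 h2
    have := mem_range_of_exists_le_of_exists_ge hq ⟨xa, h1⟩ ⟨xb, h2⟩
    exact this
  obtain ⟨η, N, hη, hηδ, hN⟩ : ∃ (η : ℝ) (N : ℕ), 0 < η ∧ 2 * η < δ ∧ β - α = N * η := by
    rcases eq_or_lt_of_le hαβ with he | hlt
    · exact ⟨δ / 4, 0, by positivity, by linarith, by simp [he]⟩
    · obtain ⟨N, hN⟩ := exists_nat_gt ((β - α) * 4 / δ)
      have hNpos : (0:ℝ) < N := lt_of_le_of_lt (by apply div_nonneg <;> nlinarith) hN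
      refine ⟨(β - α) / N, N, by apply div_pos <;> linarith, ?_, by field_simp⟩
      rw [div_lt_iff₀ hδ] at hN
      have : 2 * ((β - α) / N) = (2 * (β - α)) / N := by ring
      rw [this, div_lt_iff₀ hNpos]
      nlinarith
  refine ⟨N + 1, fun i => q ⁻¹' Ioo (α + ((i : ℕ) - 1) * η) (α + ((i : ℕ) + 1) * η), ⟨?_, ?_⟩, ?_, ?_⟩
  · intro i; exact isOpen_Ioo.preimage hq
  · intro i j
    constructor
    · rintro ⟨x, ⟨h1, h2⟩, h3, h4⟩
      have e1 : (((i:ℕ):ℝ) - 1) * η < (((j:ℕ):ℝ) + 1) * η := by linarith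
      have e2 : (((j:ℕ):ℝ) - 1) * η < (((i:ℕ):ℝ) + 1) * η := by linarith
      have e3 : ((i:ℕ):ℝ) - 1 < ((j:ℕ):ℝ) + 1 := lt_of_mul_lt_mul_right e1 hη.le
      have e4 : ((j:ℕ):ℝ) - 1 < ((i:ℕ):ℝ) + 1 := lt_of_mul_lt_mul_right e2 hη.le
      have e5 : (i:ℕ) < (j:ℕ) + 2 := by
        have : ((i:ℕ):ℝ) < ((j:ℕ) + 2 : ℕ) := by push_cast; linarith
        exact_mod_cast this
      have e6 : (j:ℕ) < (i:ℕ) + 2 := by
        have : ((j:ℕ):ℝ) < ((i:ℕ) + 2 : ℕ) := by push_cast; linarith
        exact_mod_cast this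
      rw [abs_le]
      constructor <;> omega
    · intro hij
      -- common point: value α + (i+j)/2 * η
      have hi := i.2
      have hj := j.2
      have hi' : ((i:ℕ):ℝ) ≤ N := by exact_mod_cast Nat.lt_succ_iff.mp hi
      have hj' : ((j:ℕ):ℝ) ≤ N := by exact_mod_cast Nat.lt_succ_iff.mp hj
      have hi0 : (0:ℝ) ≤ ((i:ℕ):ℝ) := Nat.cast_nonneg _
      have hj0 : (0:ℝ) ≤ ((j:ℕ):ℝ) := Nat.cast_nonneg _
      obtain ⟨x, hx⟩ := hsurj (α + (((i:ℕ):ℝ) + ((j:ℕ):ℝ)) / 2 * η) (by
        have : 0 ≤ (((i:ℕ):ℝ) + ((j:ℕ):ℝ)) / 2 * η := by positivity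
        linarith) (by
        have : (((i:ℕ):ℝ) + ((j:ℕ):ℝ)) / 2 * η ≤ N * η := by
          apply mul_le_mul_of_nonneg_right _ hη.le
          linarith
        linarith)
      rw [abs_le] at hij
      have e1 : ((i:ℕ):ℝ) ≤ ((j:ℕ):ℝ) + 1 := by
        have : (i:ℕ) ≤ (j:ℕ) + 1 := by omega
        exact_mod_cast this
      have e2 : ((j:ℕ):ℝ) ≤ ((i:ℕ):ℝ) + 1 := by
        have : (j:ℕ) ≤ (i:ℕ) + 1 := by omega
        exact_mod_cast this
      refine ⟨x, ⟨?_, ?_⟩, ?_, ?_⟩ <;> rw [hx] <;> apply add_lt_add_right <;>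
        apply mul_lt_mul_of_pos_right _ hη <;> linarith
  · ext x
    simp only [mem_iUnion, mem_univ, iff_true]
    have h0 : 0 ≤ (q x - α) / η := div_nonneg (by linarith [hαle x]) hη.le
    have h1 : (q x - α) / η ≤ N := by
      rw [div_le_iff₀ hη]; linarith [hleβ x]
    have h2 : ⌊(q x - α) / η⌋₊ ≤ N := by
      apply Nat.floor_le_of_le h1
    refine ⟨⟨⌊(q x - α) / η⌋₊, Nat.lt_succ_of_le h2⟩, ?_, ?_⟩
    · have h3 := Nat.floor_le h0
      rw [le_div_iff₀ hη] at h3
      show α + ((⌊(q x - α) / η⌋₊ : ℝ) - 1) * η < q x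
      nlinarith
    · have h3 := Nat.lt_floor_add_one ((q x - α) / η)
      rw [div_lt_iff₀ hη] at h3
      show q x < α + ((⌊(q x - α) / η⌋₊ : ℝ) + 1) * η
      linarith
  · intro i
    have : Metric.diam (q ⁻¹' Ioo (α + ((i : ℕ) - 1) * η) (α + ((i : ℕ) + 1) * η)) ≤ ε / 2 := by
      apply Metric.diam_le_of_forall_dist_le (by positivity)
      rintro x ⟨h1, h2⟩ y ⟨h3, h4⟩
      apply le_of_lt
      apply hδq
      rw [abs_lt]
      constructor <;> nlinarith
    linarith

open Real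

/-- the graph parametrisation `a ↦ (cos a, 1/(1+a))` -/
noncomputable def tau (a : ℝ) : ℝ × ℝ := (cos a, 1 / (1 + a))

/-- closed topologist's sine curve -/
def T : Set (ℝ × ℝ) := {p | 0 ≤ p.2 ∧ p.2 ≤ 1 ∧ |p.1| ≤ 1 ∧ (0 < p.2 → p.1 = cos (1 / p.2 - 1))}

lemma one_div_sub (b : ℝ) : 1 / (1 + (1 / b - 1)) = b := by
  have : 1 + (1 / b - 1) = 1 / b := by ring
  rw [this, one_div_one_div]

lemma tau_mem {a : ℝ} (ha : 0 ≤ a) : tau a ∈ T := by
  have h1 : 0 < 1 + a := by linarith
  refine ⟨by show 0 ≤ 1 / (1 + a); positivity, ?_, abs_cos_le_one a, ?_⟩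
  · show 1 / (1 + a) ≤ 1
    rw [div_le_one h1]; linarith
  · intro _
    show cos a = cos (1 / (1 / (1 + a)) - 1)
    rw [one_div_one_div]
    congr 1; ring

lemma T_cases {p : ℝ × ℝ} (hp : p ∈ T) : (∃ a, 0 ≤ a ∧ p = tau a) ∨ (p.2 = 0 ∧ |p.1| ≤ 1) := by
  obtain ⟨h0, h1, h2, h3⟩ := hp
  rcases eq_or_lt_of_le h0 with h | h
  · right; exact ⟨h.symm, h2⟩
  · left
    refine ⟨1 / p.2 - 1, ?_, ?_⟩
    · have : 1 ≤ 1 / p.2 := by rw [le_div_iff₀ h]; linarith
      linarith
    · apply Prod.ext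
      · exact h3 h
      · exact (one_div_sub _).symm

lemma isClosed_T : IsClosed T := by
  have h1 : IsClosed {p : ℝ × ℝ | 0 ≤ p.2} := isClosed_le continuous_const continuous_snd
  have h2 : IsClosed {p : ℝ × ℝ | p.2 ≤ 1} := isClosed_le continuous_snd continuous_const
  have h3 : IsClosed {p : ℝ × ℝ | |p.1| ≤ 1} := isClosed_le continuous_fst.abs continuous_const
  have h4 : IsClosed {p : ℝ × ℝ | 0 < p.2 → p.1 = cos (1 / p.2 - 1)} := by
    rw [← isOpen_compl_iff]
    have h5 : IsOpen {p : ℝ × ℝ | 0 < p.2} := isOpen_lt continuous_const continuous_snd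
    have h6 : ContinuousOn (fun p : ℝ × ℝ => p.1 - cos (1 / p.2 - 1)) {p : ℝ × ℝ | 0 < p.2} := by
      apply ContinuousOn.sub continuous_fst.continuousOn
      apply continuous_cos.comp_continuousOn
      apply ContinuousOn.sub _ continuousOn_const
      apply ContinuousOn.div continuousOn_const continuous_snd.continuousOn
      intro p hp
      exact (ne_of_gt hp)
    have h7 := h6.isOpen_inter_preimage h5 (isOpen_compl_singleton (x := (0:ℝ)))
    convert h7 using 1
    ext p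
    simp only [mem_compl_iff, mem_inter_iff, mem_preimage, mem_singleton_iff]
    show ¬ (0 < p.2 → p.1 = cos (1 / p.2 - 1)) ↔ 0 < p.2 ∧ ¬ p.1 - cos (1 / p.2 - 1) = 0
    rw [sub_eq_zero]
    tauto
  exact h1.inter (h2.inter (h3.inter h4))

lemma T_bounded : T ⊆ Metric.closedBall 0 1 := by
  rintro p ⟨h0, h1, h2, -⟩
  rw [mem_closedBall_zero_iff, Prod.norm_def]
  apply max_le
  · exact h2
  · rw [Real.norm_eq_abs, abs_of_nonneg h0]; exact h1

lemma isCompact_T : IsCompact T :=
  (isCompact_closedBall (0 : ℝ × ℝ) 1).of_isClosed_subset isClosed_T T_bounded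

lemma tendsto_inv_aux {α : Type*} {l : Filter α} {u : α → ℝ} (hu : Tendsto u l atTop) :
    Tendsto (fun k => 1 / (1 + u k)) l (𝓝 0) := by
  have : Tendsto (fun k => 1 + u k) l atTop := tendsto_atTop_add_const_left _ _ hu
  refine this.inv_tendsto_atTop.congr (fun k => ?_)
  show (1 + u k)⁻¹ = 1 / (1 + u k)
  rw [one_div]

lemma tendsto_2pik (c : ℝ) : Tendsto (fun k : ℕ => c + k * (2 * π)) atTop atTop := by
  apply tendsto_atTop_add_const_left
  exact tendsto_natCast_atTop_atTop.atTop_mul_const (by positivity)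

lemma T_lim {x : ℝ} (hx : |x| ≤ 1) :
    Tendsto (fun k : ℕ => tau (arccos x + k * (2 * π))) atTop (𝓝 (x, 0)) := by
  unfold tau
  apply Tendsto.prodMk_nhds
  · have : ∀ k : ℕ, cos (arccos x + k * (2 * π)) = x := by
      intro k
      rw [cos_add_nat_mul_two_pi, cos_arccos (abs_le.mp hx).1 (abs_le.mp hx).2]
    simp only [this]
    exact tendsto_const_nhds
  · exact tendsto_inv_aux (tendsto_2pik _)

lemma continuousOn_tau : ContinuousOn tau (Ici 0) := by
  unfold tau
  apply ContinuousOn.prodMk continuous_cos.continuousOn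
  apply ContinuousOn.div continuousOn_const (by fun_prop)
  intro a ha
  have : (0:ℝ) ≤ a := ha
  positivity

lemma isConnected_T : IsConnected T := by
  have h1 : IsConnected (tau '' Ici 0) := isConnected_Ici.image _ continuousOn_tau
  apply h1.subset_closure
  · rintro _ ⟨a, ha, rfl⟩; exact tau_mem ha
  · intro p hp
    rcases T_cases hp with ⟨a, ha, rfl⟩ | ⟨h0, h2⟩
    · exact subset_closure ⟨a, ha, rfl⟩
    · have : p = (p.1, 0) := Prod.ext rfl h0
      rw [this]
      apply mem_closure_of_tendsto (T_lim h2)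
      filter_upwards with k
      refine ⟨_, ?_, rfl⟩
      show 0 ≤ arccos p.1 + k * (2 * π)
      have := arccos_nonneg p.1
      positivity

/-- the level `b_m` -/
noncomputable def bm (m : ℕ) : ℝ := 1 / (1 + m * (2 * π))

noncomputable def cm (m : ℕ) : ℝ := 1 / (1 + m * (2 * π) - π)

lemma bm_pos (m : ℕ) : 0 < bm m := by unfold bm; positivity

lemma bm_le_cm {m : ℕ} (hm : 1 ≤ m) : bm m ≤ cm m := by
  unfold bm cm
  have h1 : (1:ℝ) ≤ m := by exact_mod_cast hm
  have := pi_pos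
  apply one_div_le_one_div_of_le
  · nlinarith
  · linarith

lemma cm_pos {m : ℕ} (hm : 1 ≤ m) : 0 < cm m := lt_of_lt_of_le (bm_pos m) (bm_le_cm hm)

lemma bm_lt_one {m : ℕ} (hm : 1 ≤ m) : bm m < 1 := by
  unfold bm
  have h1 : (1:ℝ) ≤ m := by exact_mod_cast hm
  have := pi_pos
  rw [div_lt_one (by positivity)]
  nlinarith

lemma exists_cm {ε : ℝ} (hε : 0 < ε) : ∃ m : ℕ, 1 ≤ m ∧ cm m < ε := by
  obtain ⟨m, hm⟩ := exists_nat_gt (1 / ε)
  refine ⟨m + 1, by omega, ?_⟩
  unfold cm
  have h0 : 0 < 1 / ε := by positivity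
  have hpi := pi_gt_three
  have h3 : 1 / ε < 1 + ((m + 1 : ℕ) : ℝ) * (2 * π) - π := by
    push_cast
    nlinarith
  rw [div_lt_iff₀ (by linarith)]
  rw [div_lt_iff₀ hε] at h3
  linarith

/-- folded position on the sine curve -/
noncomputable def P (m : ℕ) (p : ℝ × ℝ) : ℝ :=
  1 / max p.2 (bm m) - 1 - (if p.2 ≤ bm m then arccos p.1 else 0)

lemma P_low {m : ℕ} {p : ℝ × ℝ} (h : p.2 ≤ bm m) : P m p = m * (2 * π) - arccos p.1 := by
  unfold P
  rw [if_pos h, max_eq_right h]
  unfold bm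
  rw [one_div_one_div]
  ring

lemma P_high {m : ℕ} {p : ℝ × ℝ} (h : bm m < p.2) : P m p = 1 / p.2 - 1 := by
  unfold P
  rw [if_neg (not_le.mpr h), max_eq_left h.le]
  ring

lemma continuousOn_P (m : ℕ) : ContinuousOn (P m) T := by
  rw [continuousOn_iff_continuous_domRestrict]
  show Continuous (fun p : T => 1 / max p.1.2 (bm m) - 1 - (if p.1.2 ≤ bm m then arccos p.1.1 else 0))
  have h2 : Continuous (fun p : T => p.1.2) := continuous_snd.comp continuous_subtype_val
  have h1 : Continuous (fun p : T => p.1.1) := continuous_fst.comp continuous_subtype_val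
  apply Continuous.sub
  · apply Continuous.sub _ continuous_const
    apply Continuous.div continuous_const (h2.max continuous_const)
    intro p
    exact ne_of_gt (lt_of_lt_of_le (bm_pos m) (le_max_right _ _))
  · apply Continuous.if_le (continuous_arccos.comp h1) continuous_const h2 continuous_const
    intro p hp
    have h3 := p.2.2.2.2 (by rw [hp]; exact bm_pos m)
    show arccos p.1.1 = 0
    rw [h3, hp]
    unfold bm
    rw [one_div_one_div, add_sub_cancel_left, cos_nat_mul_two_pi, arccos_one]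

lemma P_nonneg {m : ℕ} (hm : 1 ≤ m) {p : ℝ × ℝ} (hp : p ∈ T) : 0 ≤ P m p := by
  have h1 : (1:ℝ) ≤ m := by exact_mod_cast hm
  have hpi := pi_pos
  rcases le_or_gt p.2 (bm m) with h | h
  · rw [P_low h]
    have := arccos_le_pi p.1
    nlinarith
  · rw [P_high h]
    have h0 : 0 < p.2 := (bm_pos m).trans h
    have : 1 ≤ 1 / p.2 := by rw [le_div_iff₀ h0]; linarith [hp.2.1]
    linarith

lemma P_tau0 {m : ℕ} (hm : 1 ≤ m) : P m (tau 0) = 0 := by
  have : bm m < (tau 0).2 := by
    show bm m < 1 / (1 + 0)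
    have := bm_lt_one hm
    simpa using this
  rw [P_high this]
  show 1 / (1 / (1 + 0)) - 1 = (0:ℝ)
  norm_num

lemma P_fib_mixed {m : ℕ} (hm : 1 ≤ m) {p p' : ℝ × ℝ} (hp : p ∈ T) (hp' : p' ∈ T)
    (h : P m p = P m p') (h1 : bm m < p.2) (h2 : p'.2 ≤ bm m) : dist p p' ≤ cm m := by
  have hm1 : (1:ℝ) ≤ m := by exact_mod_cast hm
  have hpi := pi_pos
  rw [P_high h1, P_low h2] at h
  have h0 : 0 < p.2 := (bm_pos m).trans h1
  have e1 : p.1 = p'.1 := by
    rw [hp.2.2.2 h0, h]
    rw [show (m:ℝ) * (2 * π) - arccos p'.1 = -(arccos p'.1) + m * (2 * π) by ring,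
      cos_add_nat_mul_two_pi, cos_neg]
    exact cos_arccos (abs_le.mp hp'.2.2.1).1 (abs_le.mp hp'.2.2.1).2
  have e2 : p.2 ≤ cm m := by
    have h3 := arccos_le_pi p'.1
    have h4 : 1 + m * (2 * π) - π ≤ 1 / p.2 := by linarith
    unfold cm
    rw [le_div_iff₀ (by nlinarith)]
    rw [le_div_iff₀ h0] at h4
    linarith
  rw [Prod.dist_eq]
  apply max_le
  · rw [e1, dist_self]; exact (cm_pos hm).le
  · rw [Real.dist_eq, abs_le]
    constructor <;> linarith [hp'.1, cm_pos hm]

lemma P_fib {m : ℕ} (hm : 1 ≤ m) {p p' : ℝ × ℝ} (hp : p ∈ T) (hp' : p' ∈ T)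
    (h : P m p = P m p') : dist p p' ≤ cm m := by
  rcases le_or_gt p.2 (bm m) with h1 | h1 <;> rcases le_or_gt p'.2 (bm m) with h2 | h2
  · rw [P_low h1, P_low h2] at h
    have e0 : arccos p.1 = arccos p'.1 := by linarith
    have e1 : p.1 = p'.1 := arccos_injOn ⟨(abs_le.mp hp.2.2.1).1, (abs_le.mp hp.2.2.1).2⟩
      ⟨(abs_le.mp hp'.2.2.1).1, (abs_le.mp hp'.2.2.1).2⟩ e0
    rw [Prod.dist_eq]
    apply max_le
    · rw [e1, dist_self]; exact (cm_pos hm).le
    · rw [Real.dist_eq, abs_le]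
      have := bm_le_cm hm
      constructor <;> linarith [hp.1, hp'.1]
  · rw [dist_comm]
    exact P_fib_mixed hm hp' hp h.symm h2 h1
  · exact P_fib_mixed hm hp hp' h h1 h2
  · rw [P_high h1, P_high h2] at h
    have h0 : 0 < p.2 := (bm_pos m).trans h1
    have h0' : 0 < p'.2 := (bm_pos m).trans h2
    have e1 : 1 / p.2 = 1 / p'.2 := by linarith
    have e2 : p.2 = p'.2 := by
      rw [one_div, one_div] at e1
      exact inv_injective e1
    have e3 : p.1 = p'.1 := by rw [hp.2.2.2 h0, hp'.2.2.2 h0', e2]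
    have : p = p' := Prod.ext e3 e2
    rw [this, dist_self]
    exact (cm_pos hm).le

/-- two sine curves glued at their end points -/
def C1 : Set ((ℝ × ℝ) × (ℝ × ℝ)) := (T ×ˢ {tau 0}) ∪ ({tau 0} ×ˢ T)

lemma tau0_mem : tau 0 ∈ T := tau_mem le_rfl

lemma isCompact_C1 : IsCompact C1 :=
  (isCompact_T.prod isCompact_singleton).union (isCompact_singleton.prod isCompact_T)

lemma isConnected_C1 : IsConnected C1 := by
  have h : ((T ×ˢ {tau 0}) ∩ ({tau 0} ×ˢ T) : Set ((ℝ × ℝ) × (ℝ × ℝ))).Nonempty :=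
    ⟨(tau 0, tau 0), ⟨tau0_mem, rfl⟩, ⟨rfl, tau0_mem⟩⟩
  exact IsConnected.union h (isConnected_T.prod isConnected_singleton)
    (isConnected_singleton.prod isConnected_T)

lemma C1_mem {w : (ℝ × ℝ) × (ℝ × ℝ)} (hw : w ∈ C1) : w.1 ∈ T ∧ w.2 ∈ T := by
  rcases hw with ⟨h1, h2⟩ | ⟨h1, h2⟩
  · rw [h2]; exact ⟨h1, tau0_mem⟩
  · rw [h1]; exact ⟨tau0_mem, h2⟩

lemma chainable_C1 [CompactSpace C1] [ConnectedSpace C1] : Chainable C1 := by
  apply chainable_of_maps
  intro ε hε
  obtain ⟨m, hm, hmε⟩ := exists_cm hε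
  refine ⟨fun w => P m w.1.1 - P m w.1.2, ?_, ?_⟩
  · apply Continuous.sub
    · exact (continuousOn_P m).comp_continuous (continuous_fst.comp continuous_subtype_val)
        (fun w => (C1_mem w.2).1)
    · exact (continuousOn_P m).comp_continuous (continuous_snd.comp continuous_subtype_val)
        (fun w => (C1_mem w.2).2)
  · rintro ⟨⟨p, r⟩, hw⟩ ⟨⟨p', r'⟩, hw'⟩ h
    refine lt_of_le_of_lt ?_ hmε
    show dist ((p, r) : (ℝ × ℝ) × (ℝ × ℝ)) (p', r') ≤ cm m
    rw [Prod.dist_eq]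
    have h' : P m p - P m r = P m p' - P m r' := h
    have hP0 := P_tau0 hm
    rcases hw with ⟨h1, h2⟩ | ⟨h1, h2⟩ <;> rcases hw' with ⟨h3, h4⟩ | ⟨h3, h4⟩
    · have h2' : r = tau 0 := h2
      have h4' : r' = tau 0 := h4
      subst h2' h4'
      apply max_le
      · exact P_fib hm h1 h3 (by linarith)
      · show dist (tau 0) (tau 0) ≤ _
        rw [dist_self]; exact (cm_pos hm).le
    · have h2' : r = tau 0 := h2
      have h3' : p' = tau 0 := h3
      subst h2' h3'
      have e1 := P_nonneg hm h1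
      have e2 := P_nonneg hm h4
      have e1' : 0 ≤ P m p := e1
      have e2' : 0 ≤ P m r' := e2
      apply max_le
      · exact P_fib hm h1 tau0_mem (by show P m p = P m (tau 0); linarith)
      · exact P_fib hm tau0_mem h4 (by show P m (tau 0) = P m r'; linarith)
    · have h1' : p = tau 0 := h1
      have h4' : r' = tau 0 := h4
      subst h1' h4'
      have e1 := P_nonneg hm h2
      have e2 := P_nonneg hm h3
      have e1' : 0 ≤ P m r := e1
      have e2' : 0 ≤ P m p' := e2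
      apply max_le
      · exact P_fib hm tau0_mem h3 (by show P m (tau 0) = P m p'; linarith)
      · exact P_fib hm h2 tau0_mem (by show P m r = P m (tau 0); linarith)
    · have h1' : p = tau 0 := h1
      have h3' : p' = tau 0 := h3
      subst h1' h3'
      apply max_le
      · show dist (tau 0) (tau 0) ≤ _
        rw [dist_self]; exact (cm_pos hm).le
      · exact P_fib hm h2 h4 (by show P m r = P m r'; linarith)

/-- the sweeping function -/
noncomputable def A (s : ℝ) : ℝ := s * (1 - cos s)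

lemma A_nonneg {s : ℝ} (hs : 0 ≤ s) : 0 ≤ A s :=
  mul_nonneg hs (by linarith [cos_le_one s])

lemma continuous_A : Continuous A := by unfold A; fun_prop

lemma A_two_pi (m : ℕ) : A (m * (2 * π)) = 0 := by
  unfold A
  rw [cos_nat_mul_two_pi]; ring

lemma A_hits {a : ℝ} (ha : 0 ≤ a) (K : ℕ) : ∃ s : ℝ, (K : ℝ) ≤ s ∧ A s = a := by
  obtain ⟨n0, hn0⟩ := exists_nat_ge a
  set n := max n0 K with hn
  have h1 : (n0:ℝ) ≤ n := by exact_mod_cast le_max_left _ _
  have h2 : (K:ℝ) ≤ n := by exact_mod_cast le_max_right _ _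
  have hpi := pi_gt_three
  have hn' : (0:ℝ) ≤ n := Nat.cast_nonneg _
  have e1 : A (n * (2 * π) + π) = 2 * (n * (2 * π) + π) := by
    unfold A
    rw [show (n:ℝ) * (2 * π) + π = π + n * (2 * π) by ring, cos_add_nat_mul_two_pi, cos_pi]
    ring
  have := intermediate_value_Icc (by linarith : (n:ℝ) * (2 * π) ≤ n * (2 * π) + π)
    continuous_A.continuousOn
  obtain ⟨s, hs, hsa⟩ := this (show a ∈ Icc _ _ from ⟨by rw [A_two_pi]; exact ha, by
    rw [e1]; nlinarith⟩)
  refine ⟨s, ?_, hsa⟩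
  have := hs.1
  nlinarith

/-- the compactification of a ray with remainder `T` -/
def C2 : Set ((ℝ × ℝ) × ℝ) :=
  {w | w.1 ∈ T ∧ 0 ≤ w.2 ∧ w.2 ≤ 1 ∧ (0 < w.2 → w.1 = tau (A (1 / w.2 - 1)))}

/-- parametrisation of the ray -/
noncomputable def ray (s : ℝ) : (ℝ × ℝ) × ℝ := (tau (A s), 1 / (1 + s))

lemma ray_mem {s : ℝ} (hs : 0 ≤ s) : ray s ∈ C2 := by
  have h1 : 0 < 1 + s := by linarith
  refine ⟨tau_mem (A_nonneg hs), by show 0 ≤ 1 / (1 + s); positivity, ?_, ?_⟩
  · show 1 / (1 + s) ≤ 1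
    rw [div_le_one h1]; linarith
  · intro _
    show tau (A s) = tau (A (1 / (1 / (1 + s)) - 1))
    rw [one_div_one_div]
    congr 2; ring

lemma C2_cases {w : (ℝ × ℝ) × ℝ} (hw : w ∈ C2) : (∃ s, 0 ≤ s ∧ w = ray s) ∨ (w.1 ∈ T ∧ w.2 = 0) := by
  obtain ⟨h0, h1, h2, h3⟩ := hw
  rcases eq_or_lt_of_le h1 with h | h
  · right; exact ⟨h0, h.symm⟩
  · left
    refine ⟨1 / w.2 - 1, ?_, ?_⟩
    · have : 1 ≤ 1 / w.2 := by rw [le_div_iff₀ h]; linarith
      linarith
    · apply Prod.ext
      · exact h3 h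
      · exact (one_div_sub _).symm

lemma isClosed_C2 : IsClosed C2 := by
  have h1 : IsClosed {w : (ℝ × ℝ) × ℝ | w.1 ∈ T} := isClosed_T.preimage continuous_fst
  have h2 : IsClosed {w : (ℝ × ℝ) × ℝ | 0 ≤ w.2} := isClosed_le continuous_const continuous_snd
  have h3 : IsClosed {w : (ℝ × ℝ) × ℝ | w.2 ≤ 1} := isClosed_le continuous_snd continuous_const
  have h5 : IsClosed ({w : (ℝ × ℝ) × ℝ | 0 ≤ w.2} ∩ {w : (ℝ × ℝ) × ℝ | w.2 ≤ 1} ∩
      {w : (ℝ × ℝ) × ℝ | 0 < w.2 → w.1 = tau (A (1 / w.2 - 1))}) := by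
    rw [← isSeqClosed_iff_isClosed]
    intro u w hu huw
    have hu2 : Tendsto (fun n => (u n).2) atTop (𝓝 w.2) := (continuous_snd.tendsto _).comp huw
    have hu1 : Tendsto (fun n => (u n).1) atTop (𝓝 w.1) := (continuous_fst.tendsto _).comp huw
    have hw0 : 0 ≤ w.2 := ge_of_tendsto' hu2 (fun n => (hu n).1.1)
    have hw1 : w.2 ≤ 1 := le_of_tendsto' hu2 (fun n => (hu n).1.2)
    refine ⟨⟨hw0, hw1⟩, fun hpos => ?_⟩
    have hev : ∀ᶠ n in atTop, 0 < (u n).2 := hu2.eventually (lt_mem_nhds hpos)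
    have h6 : Tendsto (fun n => 1 / (u n).2 - 1) atTop (𝓝 (1 / w.2 - 1)) :=
      (tendsto_const_nhds.div hu2 (ne_of_gt hpos)).sub_const 1
    have h7 : Tendsto (fun n => A (1 / (u n).2 - 1)) atTop (𝓝 (A (1 / w.2 - 1))) :=
      (continuous_A.tendsto _).comp h6
    have h9 : 0 ≤ A (1 / w.2 - 1) := by
      apply A_nonneg
      have : 1 ≤ 1 / w.2 := by rw [le_div_iff₀ hpos]; linarith
      linarith
    have h8 : ContinuousAt tau (A (1 / w.2 - 1)) := by
      unfold tau
      apply ContinuousAt.prodMk continuous_cos.continuousAt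
      apply ContinuousAt.div continuousAt_const (by fun_prop)
      positivity
    have h10 : Tendsto (fun n => tau (A (1 / (u n).2 - 1))) atTop (𝓝 (tau (A (1 / w.2 - 1)))) :=
      h8.tendsto.comp h7
    have h11 : Tendsto (fun n => (u n).1) atTop (𝓝 (tau (A (1 / w.2 - 1)))) := by
      apply h10.congr'
      filter_upwards [hev] with n hn
      exact ((hu n).2 hn).symm
    exact tendsto_nhds_unique hu1 h11
  have : C2 = {w : (ℝ × ℝ) × ℝ | w.1 ∈ T} ∩ ({w : (ℝ × ℝ) × ℝ | 0 ≤ w.2} ∩ {w : (ℝ × ℝ) × ℝ | w.2 ≤ 1} ∩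
      {w : (ℝ × ℝ) × ℝ | 0 < w.2 → w.1 = tau (A (1 / w.2 - 1))}) := by
    ext w
    constructor
    · rintro ⟨a, b, c, d⟩; exact ⟨a, ⟨b, c⟩, d⟩
    · rintro ⟨a, ⟨b, c⟩, d⟩; exact ⟨a, b, c, d⟩
  rw [this]
  exact h1.inter h5

lemma isCompact_C2 : IsCompact C2 := by
  have h1 : IsCompact (T ×ˢ (Icc (0:ℝ) 1)) := isCompact_T.prod isCompact_Icc
  apply h1.of_isClosed_subset isClosed_C2
  rintro w ⟨a, b, c, -⟩
  exact ⟨a, b, c⟩

lemma ray_lim {p : ℝ × ℝ} {u : ℕ → ℝ} (hu : Tendsto u atTop atTop)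
    (hp : Tendsto (fun k => tau (A (u k))) atTop (𝓝 p)) :
    Tendsto (fun k => ray (u k)) atTop (𝓝 (p, 0)) := by
  unfold ray
  exact hp.prodMk_nhds (tendsto_inv_aux hu)

lemma exists_ray_seq {p : ℝ × ℝ} (hp : p ∈ T) : ∃ u : ℕ → ℝ, Tendsto u atTop atTop ∧ (∀ k, 0 ≤ u k) ∧
    Tendsto (fun k => ray (u k)) atTop (𝓝 (p, 0)) := by
  rcases T_cases hp with ⟨a, ha, rfl⟩ | ⟨h0, h2⟩
  · choose u hu1 hu2 using fun K => A_hits ha K
    have hu : Tendsto u atTop atTop := tendsto_atTop_mono hu1 tendsto_natCast_atTop_atTop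
    refine ⟨u, hu, fun k => (Nat.cast_nonneg k).trans (hu1 k), ray_lim hu ?_⟩
    simp only [hu2]
    exact tendsto_const_nhds
  · have hnn : ∀ k : ℕ, 0 ≤ arccos p.1 + k * (2 * π) := by
      intro k
      have := arccos_nonneg p.1
      positivity
    choose u hu1 hu2 using fun K : ℕ => A_hits (hnn K) K
    have hu : Tendsto u atTop atTop := tendsto_atTop_mono hu1 tendsto_natCast_atTop_atTop
    refine ⟨u, hu, fun k => (Nat.cast_nonneg k).trans (hu1 k), ray_lim hu ?_⟩
    simp only [hu2]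
    have : p = (p.1, 0) := Prod.ext rfl h0
    rw [this]
    exact T_lim h2

lemma isConnected_C2 : IsConnected C2 := by
  have hcont : ContinuousOn ray (Ici 0) := by
    unfold ray
    apply ContinuousOn.prodMk
    · exact continuousOn_tau.comp continuous_A.continuousOn (fun s hs => A_nonneg hs)
    · apply ContinuousOn.div continuousOn_const (by fun_prop)
      intro a ha
      have : (0:ℝ) ≤ a := ha
      positivity
  have h1 : IsConnected (ray '' Ici 0) := isConnected_Ici.image _ hcont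
  apply h1.subset_closure
  · rintro _ ⟨a, ha, rfl⟩; exact ray_mem ha
  · intro w hw
    rcases C2_cases hw with ⟨s, hs, rfl⟩ | ⟨h0, h2⟩
    · exact subset_closure ⟨s, hs, rfl⟩
    · obtain ⟨u, hu, hu0, hlim⟩ := exists_ray_seq h0
      have : w = (w.1, 0) := Prod.ext rfl h2
      rw [this]
      apply mem_closure_of_tendsto hlim
      filter_upwards with k
      exact ⟨_, hu0 k, rfl⟩

lemma chainable_C2 [CompactSpace C2] [ConnectedSpace C2] : Chainable C2 := by
  apply chainable_of_maps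
  intro ε hε
  obtain ⟨m, hm, hmε⟩ := exists_cm hε
  have hb0 := bm_pos m
  refine ⟨fun w => 1 / max w.1.2 (bm m) - 1 + (if w.1.2 ≤ bm m then P m w.1.1 else 0), ?_, ?_⟩
  · have h2 : Continuous (fun w : C2 => w.1.2) := continuous_snd.comp continuous_subtype_val
    apply Continuous.add
    · apply Continuous.sub _ continuous_const
      apply Continuous.div continuous_const (h2.max continuous_const)
      intro p
      exact ne_of_gt (lt_of_lt_of_le hb0 (le_max_right _ _))
    · apply Continuous.if_le _ continuous_const h2 continuous_const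
      · intro w hw
        have h3 := w.2.2.2.2 (by rw [hw]; exact hb0)
        rw [h3, hw]
        unfold bm
        rw [one_div_one_div, add_sub_cancel_left, A_two_pi]
        exact P_tau0 hm
      · exact (continuousOn_P m).comp_continuous (continuous_fst.comp continuous_subtype_val)
          (fun w => w.2.1)
  · rintro ⟨w, hw⟩ ⟨w', hw'⟩ h
    refine lt_of_le_of_lt ?_ hmε
    show dist w w' ≤ cm m
    have h' : 1 / max w.2 (bm m) - 1 + (if w.2 ≤ bm m then P m w.1 else 0) =
      1 / max w'.2 (bm m) - 1 + (if w'.2 ≤ bm m then P m w'.1 else 0) := h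
    have hbc := bm_le_cm hm
    have mixed : ∀ v v' : (ℝ × ℝ) × ℝ, v ∈ C2 → v' ∈ C2 → bm m < v.2 → v'.2 ≤ bm m →
        1 / max v.2 (bm m) - 1 + (if v.2 ≤ bm m then P m v.1 else 0) =
        1 / max v'.2 (bm m) - 1 + (if v'.2 ≤ bm m then P m v'.1 else 0) → False := by
      intro v v' hv hv' h1 h2 h3
      rw [if_neg (not_le.mpr h1), if_pos h2, max_eq_left h1.le, max_eq_right h2] at h3
      have h4 := P_nonneg hm hv'.1
      have h5 : 1 / bm m ≤ 1 / v.2 := by linarith
      rw [div_le_div_iff₀ hb0 (hb0.trans h1)] at h5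
      linarith
    rcases le_or_gt w.2 (bm m) with h1 | h1 <;> rcases le_or_gt w'.2 (bm m) with h2 | h2
    · rw [if_pos h1, if_pos h2, max_eq_right h1, max_eq_right h2] at h'
      have h3 : P m w.1 = P m w'.1 := by linarith
      rw [Prod.dist_eq]
      apply max_le
      · exact P_fib hm hw.1 hw'.1 h3
      · rw [Real.dist_eq, abs_le]
        constructor <;> linarith [hw.2.1, hw'.2.1]
    · exact (mixed w' w hw' hw h2 h1 h'.symm).elim
    · exact (mixed w w' hw hw' h1 h2 h').elim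
    · rw [if_neg (not_le.mpr h1), if_neg (not_le.mpr h2), max_eq_left h1.le, max_eq_left h2.le] at h'
      have e1 : 1 / w.2 = 1 / w'.2 := by linarith
      have e2 : w.2 = w'.2 := by
        rw [one_div, one_div] at e1
        exact inv_injective e1
      have e3 : w.1 = w'.1 := by
        rw [hw.2.2.2 (hb0.trans h1), hw'.2.2.2 (hb0.trans h2), e2]
      have : w = w' := Prod.ext e3 e2
      rw [this, dist_self]
      exact (cm_pos hm).le

/-- teardrop loop -/
def e (k : ℝ) : ℝ × ℝ := (k * (1 - k), k ^ 2 * (1 - k))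

noncomputable def kap (b : ℝ) : ℝ := b / max b (1 - π * b)

/-- the map from the chainable continua to the real curves -/
noncomputable def G (x b w : ℝ) : ℝ × (ℝ × ℝ) × (ℝ × ℝ) := (x, e (kap b), e w)

lemma continuous_e : Continuous e := by unfold e; fun_prop

lemma kap_den (b : ℝ) : 0 < max b (1 - π * b) := by
  rcases le_or_gt b 0 with h | h
  · apply lt_max_of_lt_right
    nlinarith [pi_pos]
  · exact lt_max_of_lt_left h

lemma continuous_kap : Continuous kap := by
  unfold kap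
  apply Continuous.div continuous_id (by fun_prop)
  intro b; exact ne_of_gt (kap_den b)

lemma continuous_G : Continuous (fun p : ℝ × ℝ × ℝ => G p.1 p.2.1 p.2.2) := by
  unfold G
  have h1 := continuous_e.comp (continuous_kap.comp (continuous_fst.comp (continuous_snd (X := ℝ) (Y := ℝ × ℝ))))
  have h2 := continuous_e.comp (continuous_snd.comp (continuous_snd (X := ℝ) (Y := ℝ × ℝ)))
  exact continuous_fst.prodMk (h1.prodMk h2)

lemma e_zero : e 0 = 0 := by unfold e; simp

lemma e_one : e 1 = 0 := by unfold e; simp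

lemma kap_zero : kap 0 = 0 := by unfold kap; simp

lemma kap_inv {a : ℝ} (ha : 0 ≤ a) : kap (1 / (1 + a)) = 1 / max 1 (1 + a - π) := by
  have h1 : 0 < 1 + a := by linarith
  unfold kap
  have h2 : max (1 / (1 + a)) (1 - π * (1 / (1 + a))) = (max 1 (1 + a - π)) / (1 + a) := by
    have e1 : 1 - π * (1 / (1 + a)) = (1 + a - π) / (1 + a) := by field_simp
    rw [e1, max_div_div_right h1.le]
  rw [h2]
  have h3 : 0 < max 1 (1 + a - π) := lt_max_of_lt_left one_pos
  field_simp

lemma e_eq_zero {k : ℝ} (hk : 0 < k) (h : e k = 0) : k = 1 := by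
  have h1 : k * (1 - k) = 0 := congrArg Prod.fst h
  rcases mul_eq_zero.mp h1 with h2 | h2
  · linarith
  · linarith

lemma e_inj {k l : ℝ} (hk : 0 < k) (hl : 0 < l) (h : e k = e l) : k = l := by
  have h1 : k * (1 - k) = l * (1 - l) := congrArg Prod.fst h
  have h2 : k ^ 2 * (1 - k) = l ^ 2 * (1 - l) := congrArg Prod.snd h
  by_cases hk1 : k = 1
  · subst hk1
    have h3 : e l = 0 := by rw [← h, e_one]
    exact (e_eq_zero hl h3).symm
  · have h3 : k * (1 - k) ≠ 0 := mul_ne_zero hk.ne' (by intro h; apply hk1; linarith)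
    have h4 : (k - l) * (k * (1 - k)) = 0 := by
      have : k * (k * (1 - k)) = l * (l * (1 - l)) := by linarith
      rw [← h1] at this
      linarith
    rcases mul_eq_zero.mp h4 with h5 | h5
    · linarith
    · exact absurd h5 h3

lemma ek_small {a : ℝ} (ha : 0 ≤ a) (hpi : a ≤ π) : e (kap (1 / (1 + a))) = 0 := by
  rw [kap_inv ha, max_eq_left (by linarith), one_div_one, e_one]

lemma ek_zero {a : ℝ} (ha : 0 ≤ a) (h : e (kap (1 / (1 + a))) = 0) : a ≤ π := by
  rw [kap_inv ha] at h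
  have h3 : 0 < max 1 (1 + a - π) := lt_max_of_lt_left one_pos
  have h4 := e_eq_zero (by positivity) h
  rw [div_eq_one_iff_eq h3.ne'] at h4
  have := le_max_right 1 (1 + a - π)
  linarith

lemma ew_zero {a : ℝ} (ha : 0 ≤ a) (h : e (1 / (1 + a)) = 0) : a = 0 := by
  have h1 : 0 < 1 + a := by linarith
  have h4 := e_eq_zero (by positivity) h
  rw [div_eq_one_iff_eq h1.ne'] at h4
  linarith

lemma ew_inj {a a' : ℝ} (ha : 0 ≤ a) (ha' : 0 ≤ a') (h : e (1 / (1 + a)) = e (1 / (1 + a'))) : a = a' := by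
  have h1 : 0 < 1 + a := by linarith
  have h2 : 0 < 1 + a' := by linarith
  have h3 := e_inj (by positivity) (by positivity) h
  rw [one_div, one_div] at h3
  have := inv_injective h3
  linarith

lemma inj_aux {a a' : ℝ} (ha : 0 ≤ a) (ha' : 0 ≤ a') (hc : cos a = cos a')
    (h : e (kap (1 / (1 + a))) = e (kap (1 / (1 + a')))) : a = a' := by
  rw [kap_inv ha, kap_inv ha'] at h
  have h3 : 0 < max 1 (1 + a - π) := lt_max_of_lt_left one_pos
  have h3' : 0 < max 1 (1 + a' - π) := lt_max_of_lt_left one_pos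
  have h4 := e_inj (by positivity) (by positivity) h
  rw [one_div, one_div] at h4
  have h5 := inv_injective h4
  rcases le_or_gt a π with h6 | h6
  · rw [max_eq_left (by linarith)] at h5
    have h7 : a' ≤ π := by
      have := le_max_right 1 (1 + a' - π)
      linarith
    exact injOn_cos ⟨ha, h6⟩ ⟨ha', h7⟩ hc
  · rw [max_eq_right (by linarith)] at h5
    rcases le_or_gt a' π with h7 | h7
    · rw [max_eq_left (by linarith)] at h5
      linarith
    · rw [max_eq_right (by linarith)] at h5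
      linarith

abbrev E5 : Type := ℝ × (ℝ × ℝ) × (ℝ × ℝ)

/-- first real curve: both ends oscillate onto the arc traversed for `0 ≤ s ≤ π` -/
noncomputable def f1 (s : ℝ) : E5 :=
  G (cos (max s 0) + cos (max (-s) 0)) (1 / (1 + max s 0)) (1 / (1 + max (-s) 0))

/-- position on the Warsaw circle -/
noncomputable def pos (s : ℝ) : ℝ := max (-s) 0 + A (max s 0)

/-- second real curve: a Warsaw circle for `s ≤ 0` together with a ray sweeping over it back and forth -/
noncomputable def f2 (s : ℝ) : E5 := G (cos (pos s)) (1 / (1 + pos s)) (1 / (1 + max s 0))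

lemma pos_nonneg (s : ℝ) : 0 ≤ pos s := add_nonneg (le_max_right _ _) (A_nonneg (le_max_right _ _))

lemma A_zero : A 0 = 0 := by unfold A; simp

lemma pos_of_nonneg {s : ℝ} (hs : 0 ≤ s) : pos s = A s := by
  unfold pos
  rw [max_eq_left hs, max_eq_right (by linarith), zero_add]

lemma pos_of_nonpos {s : ℝ} (hs : s ≤ 0) : pos s = -s := by
  unfold pos
  rw [max_eq_right hs, max_eq_left (by linarith), A_zero, add_zero]

lemma continuous_G' {f g h : ℝ → ℝ} (hf : Continuous f) (hg : Continuous g) (hh : Continuous h) :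
    Continuous (fun s => G (f s) (g s) (h s)) :=
  continuous_G.comp (hf.prodMk (hg.prodMk hh))

lemma cont_inv {f : ℝ → ℝ} (hf : Continuous f) (h0 : ∀ s, 0 ≤ f s) :
    Continuous (fun s => 1 / (1 + f s)) := by
  apply Continuous.div continuous_const (by fun_prop)
  intro s
  have := h0 s
  positivity

lemma continuous_f1 : Continuous f1 := by
  unfold f1
  apply continuous_G' (by fun_prop)
  · exact cont_inv (by fun_prop) (fun s => le_max_right _ _)
  · exact cont_inv (by fun_prop) (fun s => le_max_right _ _)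

lemma continuous_pos : Continuous pos := by
  unfold pos
  have := continuous_A
  fun_prop

lemma continuous_f2 : Continuous f2 := by
  unfold f2
  have := continuous_pos
  apply continuous_G' (by fun_prop)
  · exact cont_inv continuous_pos pos_nonneg
  · exact cont_inv (by fun_prop) (fun s => le_max_right _ _)

lemma G_inj {x b w x' b' w' : ℝ} (h : G x b w = G x' b' w') :
    x = x' ∧ e (kap b) = e (kap b') ∧ e w = e w' := by
  unfold G at h
  have h1 := congrArg Prod.fst h
  have h2 := congrArg Prod.snd h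
  exact ⟨h1, congrArg Prod.fst h2, congrArg Prod.snd h2⟩

lemma injective_f1 : Function.Injective f1 := by
  intro s s' h
  obtain ⟨h1, h2, h3⟩ := G_inj h
  have h4 := ew_inj (le_max_right _ _) (le_max_right _ _) h3
  rcases lt_or_ge s 0 with hs | hs
  · rw [max_eq_left (by linarith)] at h4
    rcases lt_or_ge s' 0 with hs' | hs'
    · rw [max_eq_left (by linarith)] at h4; linarith
    · rw [max_eq_right (by linarith)] at h4; linarith
  · rcases lt_or_ge s' 0 with hs' | hs'
    · rw [max_eq_right (by linarith), max_eq_left (by linarith)] at h4; linarith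
    · rw [max_eq_left hs, max_eq_left hs', max_eq_right (by linarith), max_eq_right (by linarith)] at h1
      rw [max_eq_left hs, max_eq_left hs'] at h2
      exact inj_aux hs hs' (by linarith) h2

lemma injective_f2 : Function.Injective f2 := by
  intro s s' h
  obtain ⟨h1, h2, h3⟩ := G_inj h
  have h4 := ew_inj (le_max_right _ _) (le_max_right _ _) h3
  rcases lt_or_ge 0 s with hs | hs
  · rw [max_eq_left hs.le] at h4
    rcases lt_or_ge 0 s' with hs' | hs'
    · rw [max_eq_left hs'.le] at h4; exact h4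
    · rw [max_eq_right hs'] at h4; linarith
  · rcases lt_or_ge 0 s' with hs' | hs'
    · rw [max_eq_left hs'.le, max_eq_right hs] at h4; linarith
    · rw [pos_of_nonpos hs, pos_of_nonpos hs'] at h1 h2
      have := inj_aux (by linarith) (by linarith) h1 h2
      linarith

lemma max_neg_zero_of {s : ℝ} (hs : 0 ≤ s) : max (-s) 0 = 0 := max_eq_right (by linarith)

/-- values on the arc -/
lemma f1_arc {s : ℝ} (h0 : 0 ≤ s) (h1 : s ≤ π) : f1 s = (cos s + 1, 0, 0) := by
  unfold f1 G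
  rw [max_eq_left h0, max_neg_zero_of h0, ek_small h0 h1, cos_zero, add_zero, one_div_one, e_one]

lemma f2_arc {s : ℝ} (h0 : 0 ≤ s) (h1 : s ≤ π) : f2 (-s) = (cos s, 0, 0) := by
  unfold f2 G
  rw [pos_of_nonpos (by linarith), neg_neg, ek_small h0 h1, max_eq_right (by linarith), add_zero,
    one_div_one, e_one]

lemma image_C1 : (fun w : (ℝ × ℝ) × (ℝ × ℝ) => G (w.1.1 + w.2.1) w.1.2 w.2.2) '' C1 = range f1 := by
  apply Subset.antisymm
  · have key : ∀ p ∈ T, G (p.1 + 1) p.2 1 ∈ range f1 ∧ G (1 + p.1) 1 p.2 ∈ range f1 := by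
      intro p hp
      rcases T_cases hp with ⟨a, ha, rfl⟩ | ⟨h0, h2⟩
      · constructor
        · refine ⟨a, ?_⟩
          unfold f1
          rw [max_eq_left ha, max_neg_zero_of ha, cos_zero, add_zero, one_div_one]
          rfl
        · refine ⟨-a, ?_⟩
          unfold f1
          rw [neg_neg, max_eq_left ha, max_neg_zero_of ha, cos_zero, add_zero, one_div_one]
          rfl
      · have e1 : f1 (arccos p.1) = (p.1 + 1, 0, 0) := by
          rw [f1_arc (arccos_nonneg _) (arccos_le_pi _), cos_arccos (abs_le.mp h2).1 (abs_le.mp h2).2]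
        have k1 : kap 1 = 1 := by
          have := kap_inv (le_refl (0:ℝ))
          rw [add_zero, one_div_one, max_eq_left (by linarith [pi_gt_three]), one_div_one] at this
          exact this
        constructor
        · refine ⟨arccos p.1, ?_⟩
          rw [e1, h0]
          unfold G
          rw [kap_zero, e_zero, e_one]
        · refine ⟨arccos p.1, ?_⟩
          rw [e1, h0]
          unfold G
          rw [k1, e_zero, e_one, add_comm]
    have t1 : (tau 0).1 = 1 := by unfold tau; exact cos_zero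
    have t2 : (tau 0).2 = 1 := by unfold tau; norm_num
    rintro _ ⟨⟨p, r⟩, hw, rfl⟩
    rcases hw with ⟨h1, h2⟩ | ⟨h1, h2⟩
    · have h2' : r = tau 0 := h2
      subst h2'
      have := (key p h1).1
      rw [← t1] at this
      nth_rewrite 2 [t1] at this
      show G (p.1 + (tau 0).1) p.2 (tau 0).2 ∈ range f1
      rw [t2, t1]
      exact (key p h1).1
    · have h1' : p = tau 0 := h1
      subst h1'
      show G ((tau 0).1 + r.1) (tau 0).2 r.2 ∈ range f1
      rw [t2, t1]
      exact (key r h2).2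
  · rintro _ ⟨s, rfl⟩
    rcases le_or_gt 0 s with hs | hs
    · refine ⟨(tau s, tau 0), Or.inl ⟨tau_mem hs, rfl⟩, ?_⟩
      unfold f1
      rw [max_eq_left hs, max_neg_zero_of hs]
      rfl
    · refine ⟨(tau 0, tau (-s)), Or.inr ⟨rfl, tau_mem (by linarith)⟩, ?_⟩
      unfold f1
      rw [max_eq_right hs.le, max_eq_left (by linarith)]
      rfl

lemma image_C2 : (fun w : (ℝ × ℝ) × ℝ => G w.1.1 w.1.2 w.2) '' C2 = range f2 := by
  apply Subset.antisymm
  · rintro _ ⟨w, hw, rfl⟩
    rcases C2_cases hw with ⟨s, hs, rfl⟩ | ⟨h0, h2⟩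
    · refine ⟨s, ?_⟩
      unfold f2
      rw [pos_of_nonneg hs, max_eq_left hs]
      rfl
    · rcases T_cases h0 with ⟨a, ha, hwa⟩ | ⟨h3, h4⟩
      · refine ⟨-a, ?_⟩
        show f2 (-a) = G w.1.1 w.1.2 w.2
        rw [hwa, h2]
        unfold f2
        rw [pos_of_nonpos (by linarith), neg_neg, max_eq_right (by linarith), add_zero, one_div_one]
        unfold G
        rw [e_one, e_zero]
        rfl
      · refine ⟨-(arccos w.1.1), ?_⟩
        show f2 (-(arccos w.1.1)) = G w.1.1 w.1.2 w.2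
        rw [f2_arc (arccos_nonneg _) (arccos_le_pi _), cos_arccos (abs_le.mp h4).1 (abs_le.mp h4).2,
          h2, h3]
        unfold G
        rw [kap_zero, e_zero]
  · rintro _ ⟨s, rfl⟩
    rcases le_or_gt 0 s with hs | hs
    · refine ⟨ray s, ray_mem hs, ?_⟩
      unfold f2
      rw [pos_of_nonneg hs, max_eq_left hs]
      rfl
    · refine ⟨(tau (-s), 0), ⟨tau_mem (by linarith), le_rfl, zero_le_one, fun h => absurd h (lt_irrefl _)⟩, ?_⟩
      unfold f2
      rw [pos_of_nonpos hs.le, max_eq_right hs.le, add_zero, one_div_one]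
      show G (cos (-s)) (1 / (1 + -s)) 0 = _
      unfold G
      rw [e_one, e_zero]

abbrev Y1 : Type := range f1
abbrev Y2 : Type := range f2

noncomputable def F1 : ℝ → Y1 := rangeFactorization f1
noncomputable def F2 : ℝ → Y2 := rangeFactorization f2

lemma isCompact_Y1 : IsCompact (range f1) := by
  rw [← image_C1]
  apply isCompact_C1.image
  exact continuous_G.comp (by fun_prop : Continuous (fun w : (ℝ × ℝ) × (ℝ × ℝ) => (w.1.1 + w.2.1, w.1.2, w.2.2)))

lemma isCompact_Y2 : IsCompact (range f2) := by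
  rw [← image_C2]
  apply isCompact_C2.image
  exact continuous_G.comp (by fun_prop : Continuous (fun w : (ℝ × ℝ) × ℝ => (w.1.1, w.1.2, w.2)))

instance : CompactSpace Y1 := isCompact_iff_compactSpace.mp isCompact_Y1
instance : CompactSpace Y2 := isCompact_iff_compactSpace.mp isCompact_Y2
instance : CompactSpace C1 := isCompact_iff_compactSpace.mp isCompact_C1
instance : CompactSpace C2 := isCompact_iff_compactSpace.mp isCompact_C2
instance : ConnectedSpace C1 := isConnected_iff_connectedSpace.mp isConnected_C1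
instance : ConnectedSpace C2 := isConnected_iff_connectedSpace.mp isConnected_C2
instance : ConnectedSpace Y1 := isConnected_iff_connectedSpace.mp (isConnected_range continuous_f1)
instance : ConnectedSpace Y2 := isConnected_iff_connectedSpace.mp (isConnected_range continuous_f2)

lemma F1_cont : Continuous F1 := continuous_f1.subtype_mk _
lemma F2_cont : Continuous F2 := continuous_f2.subtype_mk _
lemma F1_inj : Function.Injective F1 := fun _ _ h => injective_f1 (congrArg Subtype.val h)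
lemma F2_inj : Function.Injective F2 := fun _ _ h => injective_f2 (congrArg Subtype.val h)
lemma F1_surj : Function.Surjective F1 := rangeFactorization_surjective
lemma F2_surj : Function.Surjective F2 := rangeFactorization_surjective

lemma mem_Lp_of_seq {X : Type*} [TopologicalSpace X] {f : ℝ → X} {x : X} {u : ℕ → ℝ}
    (hu : Tendsto u atTop atTop) (h : Tendsto (fun k => f (u k)) atTop (𝓝 x)) : x ∈ Lp f := by
  have h1 : MapClusterPt x atTop (f ∘ u) := h.mapClusterPt
  exact MapClusterPt.of_comp hu h1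

lemma tendsto_ek {α : Type*} {l : Filter α} {u : α → ℝ} (hu : Tendsto u l atTop) :
    Tendsto (fun k => e (kap (1 / (1 + u k)))) l (𝓝 0) := by
  have h1 := ((continuous_e.comp continuous_kap).tendsto 0).comp (tendsto_inv_aux hu)
  simp only [Function.comp_apply, kap_zero, e_zero] at h1
  exact h1

lemma tendsto_ew {α : Type*} {l : Filter α} {u : α → ℝ} (hu : Tendsto u l atTop) :
    Tendsto (fun k => e (1 / (1 + u k))) l (𝓝 0) := by
  have h1 := ((continuous_e).tendsto 0).comp (tendsto_inv_aux hu)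
  rw [e_zero] at h1
  exact h1

lemma cos_seq (c : ℝ) (k : ℕ) : cos (c + k * (2 * π)) = cos c := cos_add_nat_mul_two_pi c k

lemma seq_nonneg {c : ℝ} (hc : 0 ≤ c) (k : ℕ) : 0 ≤ c + k * (2 * π) := by positivity

lemma F1_Lp {c : ℝ} (h0 : 0 ≤ c) (h1 : c ≤ π) : F1 c ∈ Lp F1 := by
  apply mem_Lp_of_seq (tendsto_2pik c)
  rw [tendsto_subtype_rng]
  show Tendsto (fun k : ℕ => f1 (c + k * (2 * π))) atTop (𝓝 (f1 c))
  rw [f1_arc h0 h1]
  have : ∀ k : ℕ, f1 (c + k * (2 * π)) = (cos c + 1, e (kap (1 / (1 + (c + k * (2 * π))))), 0) := by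
    intro k
    unfold f1 G
    rw [max_eq_left (seq_nonneg h0 k), max_neg_zero_of (seq_nonneg h0 k), cos_seq, cos_zero,
      add_zero, one_div_one, e_one]
  simp only [this]
  exact tendsto_const_nhds.prodMk_nhds ((tendsto_ek (tendsto_2pik c)).prodMk_nhds tendsto_const_nhds)

lemma kap_one : kap 1 = 1 := by
  have := kap_inv (le_refl (0:ℝ))
  rw [add_zero, one_div_one, max_eq_left (by linarith [pi_gt_three]), one_div_one] at this
  exact this

lemma F1_Lm {c : ℝ} (h0 : 0 ≤ c) (h1 : c ≤ π) : F1 c ∈ Lm F1 := by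
  apply mem_Lp_of_seq (tendsto_2pik c)
  rw [tendsto_subtype_rng]
  show Tendsto (fun k : ℕ => f1 (-(c + k * (2 * π)))) atTop (𝓝 (f1 c))
  rw [f1_arc h0 h1]
  have : ∀ k : ℕ, f1 (-(c + k * (2 * π))) = (cos c + 1, 0, e (1 / (1 + (c + k * (2 * π))))) := by
    intro k
    unfold f1 G
    rw [neg_neg, max_eq_left (seq_nonneg h0 k), max_neg_zero_of (seq_nonneg h0 k), cos_seq, cos_zero,
      add_zero, one_div_one, kap_one, e_one, add_comm]
  simp only [this]
  exact tendsto_const_nhds.prodMk_nhds (tendsto_const_nhds.prodMk_nhds (tendsto_ew (tendsto_2pik c)))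

lemma F1_Lp_nontrivial : (Lp F1).Nontrivial :=
  ⟨F1 0, F1_Lp le_rfl pi_pos.le, F1 π, F1_Lp pi_pos.le le_rfl, fun h => pi_pos.ne (F1_inj h)⟩

lemma F1_Lm_nontrivial : (Lm F1).Nontrivial :=
  ⟨F1 0, F1_Lm le_rfl pi_pos.le, F1 π, F1_Lm pi_pos.le le_rfl, fun h => pi_pos.ne (F1_inj h)⟩

lemma f1_loc {t : ℝ} (h1 : (f1 t).2.1 = 0) (h2 : (f1 t).2.2 = 0) : t ∈ Icc (-π) π := by
  have h3 : max t 0 ≤ π := ek_zero (le_max_right _ _) h1
  have h4 : max (-t) 0 = 0 := ew_zero (le_max_right _ _) h2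
  have h5 := le_max_left t 0
  have h6 := le_max_left (-t) 0
  constructor <;> linarith [pi_pos]

lemma tendsto_max_atTop : Tendsto (fun s : ℝ => max s 0) atTop atTop :=
  tendsto_atTop_mono (fun s => le_max_left s 0) tendsto_id

lemma F1_Lp_bd : Bd (F1 ⁻¹' Lp F1) := by
  refine ⟨π, fun t ht => ?_⟩
  obtain ⟨U, hU, hUt⟩ := mem_Lp_iff.mp ht
  have h0 : Tendsto f1 U (𝓝 (f1 t)) := (continuous_subtype_val.tendsto _).comp hUt
  have h1 : Tendsto (fun s => (f1 s).2.1) U (𝓝 (f1 t).2.1) :=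
    ((continuous_fst.comp continuous_snd).tendsto _).comp h0
  have h2 : Tendsto (fun s => (f1 s).2.2) U (𝓝 (f1 t).2.2) :=
    ((continuous_snd.comp continuous_snd).tendsto _).comp h0
  have e1 : Tendsto (fun s => (f1 s).2.1) U (𝓝 0) := (tendsto_ek tendsto_max_atTop).mono_left hU
  have e2 : Tendsto (fun s => (f1 s).2.2) U (𝓝 0) := by
    apply Tendsto.congr' _ tendsto_const_nhds
    filter_upwards [hU (Ici_mem_atTop 0)] with s hs
    show 0 = e (1 / (1 + max (-s) 0))
    rw [max_neg_zero_of hs, add_zero, one_div_one, e_one]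
  exact f1_loc (tendsto_nhds_unique h1 e1) (tendsto_nhds_unique h2 e2)

lemma F1_Lm_bd : Bd (F1 ⁻¹' Lm F1) := by
  refine ⟨π, fun t ht => ?_⟩
  obtain ⟨U, hU, hUt⟩ := mem_Lm_iff.mp ht
  have h0 : Tendsto f1 U (𝓝 (f1 t)) := (continuous_subtype_val.tendsto _).comp hUt
  have h1 : Tendsto (fun s => (f1 s).2.1) U (𝓝 (f1 t).2.1) :=
    ((continuous_fst.comp continuous_snd).tendsto _).comp h0
  have h2 : Tendsto (fun s => (f1 s).2.2) U (𝓝 (f1 t).2.2) :=
    ((continuous_snd.comp continuous_snd).tendsto _).comp h0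
  have e1 : Tendsto (fun s => (f1 s).2.1) U (𝓝 0) := by
    apply Tendsto.congr' _ tendsto_const_nhds
    filter_upwards [hU (Iic_mem_atBot 0)] with s hs
    have hs' : s ≤ 0 := hs
    show 0 = e (kap (1 / (1 + max s 0)))
    rw [max_eq_right hs', add_zero, one_div_one, kap_one, e_one]
  have e2 : Tendsto (fun s => (f1 s).2.2) U (𝓝 0) :=
    (tendsto_ew (tendsto_max_atTop.comp tendsto_neg_atBot_atTop)).mono_left hU
  exact f1_loc (tendsto_nhds_unique h1 e1) (tendsto_nhds_unique h2 e2)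

lemma F2_Lp {t : ℝ} (ht : t ≤ 0) : F2 t ∈ Lp F2 := by
  choose u hu1 hu2 using fun K => A_hits (show 0 ≤ -t by linarith) K
  have hu : Tendsto u atTop atTop := tendsto_atTop_mono hu1 tendsto_natCast_atTop_atTop
  apply mem_Lp_of_seq hu
  rw [tendsto_subtype_rng]
  show Tendsto (fun k : ℕ => f2 (u k)) atTop (𝓝 (f2 t))
  have e1 : f2 t = (cos (-t), e (kap (1 / (1 + -t))), 0) := by
    unfold f2 G
    rw [pos_of_nonpos ht, max_eq_right ht, add_zero, one_div_one, e_one]
  have e2 : ∀ k, f2 (u k) = (cos (-t), e (kap (1 / (1 + -t))), e (1 / (1 + u k))) := by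
    intro k
    have h0 : 0 ≤ u k := (Nat.cast_nonneg k).trans (hu1 k)
    unfold f2 G
    rw [pos_of_nonneg h0, hu2, max_eq_left h0]
  rw [e1]
  simp only [e2]
  exact tendsto_const_nhds.prodMk_nhds (tendsto_const_nhds.prodMk_nhds (tendsto_ew hu))

lemma F2_Lm {c : ℝ} (h0 : 0 ≤ c) (h1 : c ≤ π) : F2 (-c) ∈ Lm F2 := by
  apply mem_Lp_of_seq (tendsto_2pik c)
  rw [tendsto_subtype_rng]
  show Tendsto (fun k : ℕ => f2 (-(c + k * (2 * π)))) atTop (𝓝 (f2 (-c)))
  rw [f2_arc h0 h1]
  have : ∀ k : ℕ, f2 (-(c + k * (2 * π))) = (cos c, e (kap (1 / (1 + (c + k * (2 * π))))), 0) := by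
    intro k
    have := seq_nonneg h0 k
    unfold f2 G
    rw [pos_of_nonpos (by linarith), neg_neg, cos_seq, max_eq_right (by linarith),
      add_zero, one_div_one, e_one]
  simp only [this]
  exact tendsto_const_nhds.prodMk_nhds ((tendsto_ek (tendsto_2pik c)).prodMk_nhds tendsto_const_nhds)

lemma F2_Lp_nontrivial : (Lp F2).Nontrivial :=
  ⟨F2 0, F2_Lp le_rfl, F2 (-1), F2_Lp (by norm_num), fun h => by
    have := F2_inj h
    norm_num at this⟩

lemma F2_Lm_nontrivial : (Lm F2).Nontrivial := by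
  refine ⟨F2 (-0), F2_Lm le_rfl pi_pos.le, F2 (-π), F2_Lm pi_pos.le le_rfl, fun h => ?_⟩
  have h1 := F2_inj h
  have := pi_pos
  linarith

lemma F2_Lp_unbounded : ¬ Bd (F2 ⁻¹' Lp F2) := by
  rintro ⟨N, hN⟩
  have h1 : -(|N| + 1) ∈ F2 ⁻¹' Lp F2 := F2_Lp (by have := abs_nonneg N; linarith)
  have h2 := (hN h1).1
  have := le_abs_self N
  linarith

lemma realCurve_Y1 : IsRealCurve Y1 :=
  ⟨⟨inferInstance, inferInstance⟩, F1, F1_cont, F1_inj, F1_surj⟩

lemma realCurve_Y2 : IsRealCurve Y2 :=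
  ⟨⟨inferInstance, inferInstance⟩, F2, F2_cont, F2_inj, F2_surj⟩

lemma weaklyChainable_Y1 : WeaklyChainable Y1 := by
  refine ⟨C1, inferInstance, ⟨inferInstance, inferInstance⟩, chainable_C1,
    fun w => ⟨G (w.1.1.1 + w.1.2.1) w.1.1.2 w.1.2.2, ?_⟩, ?_, ?_⟩
  · rw [← image_C1]; exact ⟨w.1, w.2, rfl⟩
  · apply Continuous.subtype_mk
    exact continuous_G.comp (by fun_prop : Continuous (fun w : C1 => (w.1.1.1 + w.1.2.1, w.1.1.2, w.1.2.2)))
  · rintro ⟨y, hy⟩
    rw [← image_C1] at hy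
    obtain ⟨w, hw, rfl⟩ := hy
    exact ⟨⟨w, hw⟩, rfl⟩

lemma weaklyChainable_Y2 : WeaklyChainable Y2 := by
  refine ⟨C2, inferInstance, ⟨inferInstance, inferInstance⟩, chainable_C2,
    fun w => ⟨G w.1.1.1 w.1.1.2 w.1.2, ?_⟩, ?_, ?_⟩
  · rw [← image_C2]; exact ⟨w.1, w.2, rfl⟩
  · apply Continuous.subtype_mk
    exact continuous_G.comp (by fun_prop : Continuous (fun w : C2 => (w.1.1.1, w.1.1.2, w.1.2)))
  · rintro ⟨y, hy⟩
    rw [← image_C2] at hy
    obtain ⟨w, hw, rfl⟩ := hy
    exact ⟨⟨w, hw⟩, rfl⟩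

/-- no real curve can be mapped onto both test curves -/
theorem no_common {X : Type*} [MetricSpace X] [CompactSpace X] {f : ℝ → X} (hc : Continuous f)
    (hi : Function.Injective f) (hs : Function.Surjective f)
    {g1 : X → Y1} (hg1 : Continuous g1) (hs1 : Function.Surjective g1)
    {g2 : X → Y2} (hg2 : Continuous g2) (hs2 : Function.Surjective g2) : False := by
  rcases structure_thm hc hi hs with ⟨h1, h2⟩ | h | h
  · exact F2_Lp_unbounded (typeI_pres hc hs F2_cont F2_inj F2_surj F2_Lp_nontrivial F2_Lm_nontrivial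
      hg2 hs2 h1 h2)
  · exact typeII_no hc hs F1_cont F1_inj F1_surj F1_Lp_nontrivial F1_Lm_nontrivial
      hg1 hs1 h F1_Lp_bd F1_Lm_bd
  · exact typeII_no (hc.comp continuous_neg) (hs.comp neg_surjective) F1_cont F1_inj F1_surj
      F1_Lp_nontrivial F1_Lm_nontrivial hg1 hs1 h F1_Lp_bd F1_Lm_bd

universe u

/-- The negated form of Q1: for every real curve `X` there is a weakly chainable real curve `Y`
which is not a continuous image of `X`. -/
theorem result (X : Type u) [MetricSpace X] (hX : IsRealCurve X) :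
    ∃ (Y : Type) (_ : MetricSpace Y), IsRealCurve Y ∧ WeaklyChainable Y ∧
      ¬ ∃ g : X → Y, Continuous g ∧ Function.Surjective g := by
  obtain ⟨⟨hcomp, -⟩, f, hc, hi, hs⟩ := hX
  by_cases h1 : ∃ g : X → Y1, Continuous g ∧ Function.Surjective g
  · refine ⟨Y2, inferInstance, realCurve_Y2, weaklyChainable_Y2, ?_⟩
    rintro ⟨g2, hg2, hs2⟩
    obtain ⟨g1, hg1, hs1⟩ := h1
    exact no_common hc hi hs hg1 hs1 hg2 hs2
  · exact ⟨Y1, inferInstance, realCurve_Y1, weaklyChainable_Y1, h1⟩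

end Pool.Agent.Results.MP_d9472f_gt.NoUniversalRealCurve
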